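import Pool.Agent.H974R2.GammaInf
import Pool.Agent.H12R2.Sep.Defs

/-!
Kesten's scaling relations, interface statements.
-/

namespace H974

open H12S

/-- (W1) near-critical stability of the box crossing and four-arm probabilities. -/
def StW1 : Prop := ∃ κ : ℝ, 0 < κ ∧ ∀ ε : ℝ, 0 < ε → ∃ n0 : ℕ, ∀ n : ℕ, n0 ≤ n → ∀ q : ℝ,
  |q - 1/2| ≤ (n:ℝ) ^ (-(3/4 : ℝ) - ε) →
    H12S.Win q κ n ∧ (n:ℝ) ^ (-(5/4 : ℝ) - ε) ≤ a4 q n ∧ a4 q n ≤ (n:ℝ) ^ (-(5/4 : ℝ) + ε)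

/-- (W2) the end of the scaling window. -/
def StW2 : Prop := ∀ κ : ℝ, 0 < κ → κ ≤ 1/2 → ∀ ε : ℝ, 0 < ε → ∃ h0 : ℝ, 0 < h0 ∧ ∀ q : ℝ,
  1/2 < q → q < 1/2 + h0 → ∃ n : ℕ, (n:ℝ) ≤ (q - 1/2) ^ (-(4/3 : ℝ) - ε) ∧ ¬ H12S.Win q κ n

/-- (S1) near-critical stability of the one-arm probability. -/
def StS1 : Prop := ∀ ε : ℝ, 0 < ε → ∃ n0 : ℕ, ∀ n : ℕ, n0 ≤ n → ∀ q : ℝ,
  |q - 1/2| ≤ (n:ℝ) ^ (-(3/4 : ℝ) - ε) →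
    (n:ℝ) ^ (-(5/48 : ℝ) - ε) ≤ arm q n ∧ arm q n ≤ (n:ℝ) ^ (-(5/48 : ℝ) + ε)

end H974
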