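import Pool.Agent.H974R2.Basic

/-!
The inequality of O'Donnell, Saks, Schramm and Servedio for decision trees which look at whole
blocks of a product space.
-/

namespace H974

open Finset

variable {E ι : Type*} [DecidableEq E] [DecidableEq ι]

/-- Block decision trees: `node i T` looks at the block `i` and continues with `T G`, where `G` is
the configuration in the block. -/
inductive BT (ι E : Type*) where
  | leaf : BT ι E
  | node : ι → (Finset E → BT ι E) → BT ι E

/-- The part of `S` in the blocks of `I`. -/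
def fb (π : E → ι) (S : Finset E) (I : Finset ι) : Finset E := S.filter (fun e => π e ∈ I)

theorem mem_fb {π : E → ι} {S : Finset E} {I : Finset ι} {e : E} :
    e ∈ fb π S I ↔ e ∈ S ∧ π e ∈ I := by simp [fb]

/-- The revealed blocks. -/
def BT.rev (π : E → ι) : BT ι E → Finset E → Finset ι
  | BT.leaf, _ => ∅
  | BT.node i T, F => insert i ((T (fb π F {i})).rev π F)

/-- The tree looks at blocks of `I` only, and at each at most once. -/
def BT.Valid : BT ι E → Finset ι → Prop
  | BT.leaf, _ => True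
  | BT.node i T, I => i ∈ I ∧ ∀ G, (T G).Valid (I.erase i)

theorem BT.rev_subset {π : E → ι} : ∀ (T : BT ι E) (I : Finset ι), T.Valid I → ∀ F,
    T.rev π F ⊆ I
  | BT.leaf, I, _, F => by simp [BT.rev]
  | BT.node i T, I, h, F => by
    obtain ⟨hi, hT⟩ := h
    unfold BT.rev
    exact Finset.insert_subset hi ((BT.rev_subset _ _ (hT _) F).trans (Finset.erase_subset _ _))

theorem fb_fb {π : E → ι} {F : Finset E} {I J : Finset ι} (h : J ⊆ I) :
    fb π (fb π F I) J = fb π F J := by
  ext e
  simp only [mem_fb]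
  constructor
  · rintro ⟨⟨h1, -⟩, h2⟩; exact ⟨h1, h2⟩
  · rintro ⟨h1, h2⟩; exact ⟨⟨h1, h h2⟩, h2⟩

theorem BT.rev_congr {π : E → ι} : ∀ (T : BT ι E) (I : Finset ι), T.Valid I → ∀ F F',
    fb π F I = fb π F' I → T.rev π F = T.rev π F'
  | BT.leaf, I, _, F, F', _ => by simp [BT.rev]
  | BT.node i T, I, h, F, F', hF => by
    obtain ⟨hi, hT⟩ := h
    have h1 : fb π F {i} = fb π F' {i} := by
      rw [← fb_fb (I := I) (F := F) (Finset.singleton_subset_iff.mpr hi), hF,
        fb_fb (Finset.singleton_subset_iff.mpr hi)]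
    have h2 : fb π F (I.erase i) = fb π F' (I.erase i) := by
      rw [← fb_fb (I := I) (F := F) (Finset.erase_subset _ _), hF,
        fb_fb (Finset.erase_subset _ _)]
    unfold BT.rev
    rw [h1, BT.rev_congr _ _ (hT _) F F' h2]

/-- The hybrid configuration. -/
def hybB (π : E → ι) (T : BT ι E) (F F' : Finset E) : Finset E :=
  F.filter (fun e => π e ∈ T.rev π F) ∪ F'.filter (fun e => π e ∉ T.rev π F)

theorem hybB_leaf (π : E → ι) (F F' : Finset E) : hybB π (BT.leaf : BT ι E) F F' = F' := by
  simp [hybB, BT.rev]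

theorem hybB_subset {π : E → ι} {T : BT ι E} {S F F' : Finset E} (h1 : F ⊆ S) (h2 : F' ⊆ S) :
    hybB π T F F' ⊆ S :=
  Finset.union_subset ((Finset.filter_subset _ _).trans h1) ((Finset.filter_subset _ _).trans h2)

theorem fb_split {π : E → ι} {S : Finset E} {I : Finset ι} {i : ι} (hi : i ∈ I) :
    fb π S I = fb π S {i} ∪ fb π S (I.erase i) := by
  ext e
  simp only [mem_fb, Finset.mem_union, Finset.mem_singleton, Finset.mem_erase]
  by_cases h : π e = i
  · simp [h, hi]
  · simp [h]

theorem fb_disj {π : E → ι} {S : Finset E} {I : Finset ι} {i : ι} :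
    Disjoint (fb π S {i}) (fb π S (I.erase i)) := by
  rw [Finset.disjoint_left]
  intro e h1 h2
  simp only [mem_fb, Finset.mem_singleton, Finset.mem_erase] at h1 h2
  exact h2.2.1 h1.2

theorem rev_node {π : E → ι} {S : Finset E} {I : Finset ι} {i : ι} {T : Finset E → BT ι E}
    (hT : ∀ G, (T G).Valid (I.erase i)) {X Y : Finset E}
    (hX : X ⊆ fb π S {i}) (hY : Y ⊆ fb π S (I.erase i)) :
    (BT.node i T).rev π (X ∪ Y) = insert i ((T X).rev π Y) := by
  have h1 : fb π (X ∪ Y) {i} = X := by
    ext e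
    simp only [mem_fb, Finset.mem_union, Finset.mem_singleton]
    constructor
    · rintro ⟨h | h, h2⟩
      · exact h
      · have := (mem_fb.mp (hY h)).2
        rw [Finset.mem_erase] at this
        exact absurd h2 this.1
    · intro h
      exact ⟨Or.inl h, by simpa using (mem_fb.mp (hX h)).2⟩
  have h2 : fb π (X ∪ Y) (I.erase i) = fb π Y (I.erase i) := by
    ext e
    simp only [mem_fb, Finset.mem_union]
    constructor
    · rintro ⟨h | h, h2⟩
      · have := (mem_fb.mp (hX h)).2
        rw [Finset.mem_singleton] at this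
        rw [this] at h2
        simp at h2
      · exact ⟨h, h2⟩
    · rintro ⟨h, h2⟩; exact ⟨Or.inr h, h2⟩
  have e : (BT.node i T).rev π (X ∪ Y) =
      insert i ((T (fb π (X ∪ Y) {i})).rev π (X ∪ Y)) := rfl
  rw [e, h1, BT.rev_congr (T X) _ (hT X) _ _ h2]

theorem hybB_node {π : E → ι} {S : Finset E} {I : Finset ι} {i : ι} {T : Finset E → BT ι E}
    (hT : ∀ G, (T G).Valid (I.erase i)) {X Y X' Y' : Finset E}
    (hX : X ⊆ fb π S {i}) (hY : Y ⊆ fb π S (I.erase i)) (hX' : X' ⊆ fb π S {i})
    (hY' : Y' ⊆ fb π S (I.erase i)) :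
    hybB π (BT.node i T) (X ∪ Y) (X' ∪ Y') = X ∪ hybB π (T X) Y Y' := by
  unfold hybB
  rw [rev_node hT hX hY]
  ext e
  simp only [Finset.mem_union, Finset.mem_filter, Finset.mem_insert, not_or]
  have a1 : e ∈ X → π e = i := fun h => by simpa using (mem_fb.mp (hX h)).2
  have a2 : e ∈ X' → π e = i := fun h => by simpa using (mem_fb.mp (hX' h)).2
  have a3 : e ∈ Y → π e ≠ i := fun h => by
    have := (mem_fb.mp (hY h)).2
    rw [Finset.mem_erase] at this
    exact this.1
  have a4 : e ∈ Y' → π e ≠ i := fun h => by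
    have := (mem_fb.mp (hY' h)).2
    rw [Finset.mem_erase] at this
    exact this.1
  tauto

theorem Ex_comm (p : E → ℝ) (A B : Finset E) (f : Finset E → Finset E → ℝ) :
    Ex p A (fun a => Ex p B (fun b => f a b)) = Ex p B (fun b => Ex p A (fun a => f a b)) := by
  unfold Ex
  simp only [Finset.mul_sum]
  rw [Finset.sum_comm]
  apply Finset.sum_congr rfl
  intro b _
  apply Finset.sum_congr rfl
  intro a _
  ring

theorem hybB_law {π : E → ι} {p : E → ℝ} {S : Finset E} : ∀ (T : BT ι E) (I : Finset ι),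
    T.Valid I → ∀ φ : Finset E → ℝ,
    Ex p (fb π S I) (fun F => Ex p (fb π S I) (fun F' => φ (hybB π T F F'))) = Ex p (fb π S I) φ
  | BT.leaf, I, _, φ => by
    simp only [hybB_leaf]
    rw [Ex_const]
  | BT.node i T, I, h, φ => by
    obtain ⟨hi, hT⟩ := h
    have ih := fun G => hybB_law (π := π) (p := p) (S := S) (T G) _ (hT G)
    rw [fb_split (S := S) hi, Ex_union fb_disj, Ex_union fb_disj]
    apply Ex_congr
    intro X hX
    rw [← ih X (fun G => φ (X ∪ G))]
    apply Ex_congr
    intro Y hY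
    rw [Ex_union fb_disj]
    have : Ex p (fb π S {i}) (fun A => Ex p (fb π S (I.erase i)) (fun B =>
        φ (hybB π (BT.node i T) (X ∪ Y) (A ∪ B)))) = Ex p (fb π S {i}) (fun _ =>
        Ex p (fb π S (I.erase i)) (fun B => φ (X ∪ hybB π (T X) Y B))) := by
      apply Ex_congr
      intro X' hX'
      apply Ex_congr
      intro Y' hY'
      rw [hybB_node hT hX hY hX' hY']
    rw [this, Ex_const]

/-- The influence of a block. -/
noncomputable def InfB (π : E → ι) (p : E → ℝ) (S : Finset E) (I : Finset ι)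
    (g : Finset E → ℝ) (i : ι) : ℝ :=
  Ex p (fb π S (I.erase i)) (fun Y => Ex p (fb π S {i}) (fun X => Ex p (fb π S {i}) (fun X' =>
    |g (X ∪ Y) - g (X' ∪ Y)|)))

theorem InfB_nonneg {π : E → ι} {p : E → ℝ} (hp : Ok p) (S : Finset E) (I : Finset ι)
    (g : Finset E → ℝ) (i : ι) : 0 ≤ InfB π p S I g i :=
  Ex_nonneg hp (fun _ _ => Ex_nonneg hp (fun _ _ => Ex_nonneg hp (fun _ _ => abs_nonneg _)))

theorem InfB_node {π : E → ι} {p : E → ℝ} {S : Finset E} {I : Finset ι} {i i' : ι}
    (hi : i ∈ I) (hne : i' ≠ i) (g : Finset E → ℝ) :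
    InfB π p S I g i' = Ex p (fb π S {i}) (fun Z =>
      InfB π p S (I.erase i) (fun G => g (Z ∪ G)) i') := by
  unfold InfB
  have h1 : i ∈ I.erase i' := Finset.mem_erase.mpr ⟨hne.symm, hi⟩
  rw [fb_split (S := S) h1, Ex_union fb_disj, Finset.erase_right_comm]
  apply Ex_congr
  intro Z _
  apply Ex_congr
  intro Y _
  apply Ex_congr
  intro X _
  apply Ex_congr
  intro X' _
  have e1 : X ∪ (Z ∪ Y) = Z ∪ (X ∪ Y) := by
    rw [← Finset.union_assoc, Finset.union_comm X Z, Finset.union_assoc]
  have e2 : X' ∪ (Z ∪ Y) = Z ∪ (X' ∪ Y) := by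
    rw [← Finset.union_assoc, Finset.union_comm X' Z, Finset.union_assoc]
  rw [e1, e2]

theorem osssB_aux {π : E → ι} {p : E → ℝ} (hp : Ok p) {S : Finset E} : ∀ (T : BT ι E)
    (I : Finset ι), T.Valid I → ∀ g : Finset E → ℝ,
    Ex p (fb π S I) (fun F => Ex p (fb π S I) (fun F' => |g (hybB π T F F') - g F'|))
      ≤ ∑ i ∈ I, Pr p (fb π S I) (fun F => i ∈ T.rev π F) * InfB π p S I g i
  | BT.leaf, I, _, g => by
    simp only [hybB_leaf, sub_self, abs_zero]
    rw [Ex_const, Ex_const]
    apply Finset.sum_nonneg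
    intro e _
    exact mul_nonneg (Pr_nonneg hp _ _) (InfB_nonneg hp _ _ _ _)
  | BT.node i T, I, h, g => by
    obtain ⟨hi, hT⟩ := h
    have ih := fun G => osssB_aux (π := π) hp (S := S) (T G) _ (hT G)
    set A := fb π S {i} with hA
    set B := fb π S (I.erase i) with hB
    -- the left-hand side
    have hL : Ex p (fb π S I) (fun F => Ex p (fb π S I) (fun F' =>
        |g (hybB π (BT.node i T) F F') - g F'|)) =
        Ex p A (fun X => Ex p A (fun X' => Ex p B (fun Y => Ex p B (fun Y' =>
          |g (X ∪ hybB π (T X) Y Y') - g (X' ∪ Y')|)))) := by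
      rw [fb_split (S := S) hi, Ex_union fb_disj]
      apply Ex_congr
      intro X hX
      rw [Ex_comm p A B (fun X' Y => Ex p B (fun Y' =>
        |g (X ∪ hybB π (T X) Y Y') - g (X' ∪ Y')|))]
      apply Ex_congr
      intro Y hY
      rw [Ex_union fb_disj]
      apply Ex_congr
      intro X' hX'
      apply Ex_congr
      intro Y' hY'
      rw [hybB_node hT hX hY hX' hY']
    -- the right-hand side
    have hR : ∑ i' ∈ I, Pr p (fb π S I) (fun F => i' ∈ (BT.node i T).rev π F) *
        InfB π p S I g i' = InfB π p S I g i + ∑ i' ∈ I.erase i,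
          Ex p A (fun X => Pr p B (fun Y => i' ∈ (T X).rev π Y)) *
            Ex p A (fun X' => InfB π p S (I.erase i) (fun G => g (X' ∪ G)) i') := by
      rw [← Finset.add_sum_erase _ _ hi]
      congr 1
      · rw [Pr_true, one_mul]
        intro F _
        simp [BT.rev]
      · apply Finset.sum_congr rfl
        intro i' hi'
        have hne : i' ≠ i := (Finset.mem_erase.mp hi').1
        congr 1
        · unfold Pr
          rw [fb_split (S := S) hi, Ex_union fb_disj]
          apply Ex_congr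
          intro X hX
          apply Ex_congr
          intro Y hY
          apply ind_congr
          show i' ∈ (BT.node i T).rev π (X ∪ Y) ↔ i' ∈ (T X).rev π Y
          rw [rev_node hT hX hY, Finset.mem_insert]
          simp [hne]
        · exact InfB_node hi hne g
    rw [hL, hR]
    have hI0 : InfB π p S I g i = Ex p A (fun X => Ex p A (fun X' => Ex p B (fun G =>
        |g (X ∪ G) - g (X' ∪ G)|))) := by
      unfold InfB
      rw [Ex_comm]
      apply Ex_congr
      intro X _
      rw [Ex_comm]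
    have hsum : ∑ i' ∈ I.erase i,
          Ex p A (fun X => Pr p B (fun Y => i' ∈ (T X).rev π Y)) *
            Ex p A (fun X' => InfB π p S (I.erase i) (fun G => g (X' ∪ G)) i') =
        Ex p A (fun X => Ex p A (fun X' => ∑ i' ∈ I.erase i,
          Pr p B (fun Y => i' ∈ (T X).rev π Y) *
            InfB π p S (I.erase i) (fun G => g (X' ∪ G)) i')) := by
      have e1 : ∀ X, Ex p A (fun X' => ∑ i' ∈ I.erase i,
          Pr p B (fun Y => i' ∈ (T X).rev π Y) *
            InfB π p S (I.erase i) (fun G => g (X' ∪ G)) i') = ∑ i' ∈ I.erase i,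
          Pr p B (fun Y => i' ∈ (T X).rev π Y) *
            Ex p A (fun X' => InfB π p S (I.erase i) (fun G => g (X' ∪ G)) i') := by
        intro X
        rw [Ex_sum]
        apply Finset.sum_congr rfl
        intro i' _
        rw [Ex_mul_left]
      simp only [e1]
      rw [Ex_sum]
      apply Finset.sum_congr rfl
      intro i' _
      rw [Ex_mul_right]
    rw [hI0, hsum, ← Ex_add]
    apply Ex_mono hp
    intro X hX
    rw [← Ex_add]
    apply Ex_mono hp
    intro X' hX'
    have hlaw := hybB_law (π := π) (p := p) (S := S) (T X) _ (hT X) (fun G => |g (X ∪ G) - g (X' ∪ G)|)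
    have hi2 := ih X (fun G => g (X' ∪ G))
    refine le_trans ?_ (add_le_add (le_of_eq hlaw) hi2)
    rw [← Ex_add]
    apply Ex_mono hp
    intro Y _
    rw [← Ex_add]
    apply Ex_mono hp
    intro Y' _
    exact abs_sub_le _ _ _

/-- The inequality for increasing events determined by a block decision tree. -/
theorem osssB {π : E → ι} {p : E → ℝ} (hp : Ok p) (T : BT ι E) (S : Finset E) (I : Finset ι)
    (hT : T.Valid I) (hS : ∀ e ∈ S, π e ∈ I) (A : Finset E → Prop) (hA : IncrE S A)
    (hdet : ∀ F F', F ⊆ S → F' ⊆ S → F.filter (fun e => π e ∈ T.rev π F) =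
      F'.filter (fun e => π e ∈ T.rev π F) → (A F ↔ A F')) :
    2 * (Pr p S A * (1 - Pr p S A))
      ≤ ∑ i ∈ I, Pr p S (fun F => i ∈ T.rev π F) *
        Pr p S (fun F => A (F ∪ fb π S {i}) ∧ ¬ A (F \ fb π S {i})) := by
  have hSI : fb π S I = S := by
    ext e; rw [mem_fb]
    exact ⟨fun h => h.1, fun h => ⟨h, hS e h⟩⟩
  have hmain := osssB_aux hp (π := π) (S := S) T I hT (fun F => ind (A F))
  rw [hSI] at hmain
  have h1 : ∀ F, F ⊆ S → ∀ F', F' ⊆ S →
      |ind (A (hybB π T F F')) - ind (A F')| =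
        ind (A F) + ind (A F') - 2 * ind (A F) * ind (A F') := by
    intro F hF F' hF'
    have h1 : A (hybB π T F F') ↔ A F := by
      refine (hdet F (hybB π T F F') hF (hybB_subset hF hF') ?_).symm
      unfold hybB
      ext x
      simp only [Finset.mem_filter, Finset.mem_union]
      tauto
    rw [ind_congr h1]
    by_cases ha : A F <;> by_cases hb : A F' <;> simp [ind, ha, hb]
    norm_num
  have h2 : Ex p S (fun F => Ex p S (fun F' => |ind (A (hybB π T F F')) - ind (A F')|))
      = 2 * (Pr p S A * (1 - Pr p S A)) := by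
    have h3 : Ex p S (fun F => Ex p S (fun F' => |ind (A (hybB π T F F')) - ind (A F')|))
        = Ex p S (fun F => Ex p S (fun F' =>
          ind (A F) + ind (A F') - 2 * ind (A F) * ind (A F'))) := by
      apply Ex_congr
      intro F hF
      apply Ex_congr
      intro F' hF'
      exact h1 F hF F' hF'
    rw [h3]
    have h4 : ∀ F, Ex p S (fun F' => ind (A F) + ind (A F') - 2 * ind (A F) * ind (A F'))
        = ind (A F) + Pr p S A - 2 * ind (A F) * Pr p S A := by
      intro F
      rw [Ex_sub, Ex_add, Ex_const, Ex_mul_left]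
      rfl
    simp only [h4]
    have h5 : ∀ F, ind (A F) + Pr p S A - 2 * ind (A F) * Pr p S A
        = (1 - 2 * Pr p S A) * ind (A F) + Pr p S A := by intro F; ring
    simp only [h5]
    rw [Ex_add, Ex_const, Ex_mul_left]
    show (1 - 2 * Pr p S A) * Pr p S A + Pr p S A = _
    ring
  rw [h2] at hmain
  refine hmain.trans ?_
  apply Finset.sum_le_sum
  intro i hi
  apply mul_le_mul_of_nonneg_left _ (Pr_nonneg hp _ _)
  -- the influence is at most the probability of being pivotal
  unfold InfB
  have e1 : Pr p S (fun F => A (F ∪ fb π S {i}) ∧ ¬ A (F \ fb π S {i})) =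
      Ex p (fb π S (I.erase i)) (fun Y => ind (A (Y ∪ fb π S {i}) ∧ ¬ A Y)) := by
    have e2 : S = fb π S {i} ∪ fb π S (I.erase i) := by
      rw [← fb_split hi]; exact hSI.symm
    unfold Pr
    conv_lhs => rw [e2]
    rw [Ex_union fb_disj, Ex_comm]
    apply Ex_congr
    intro Y hY
    have e3 : ∀ X, X ⊆ fb π S {i} → ind (A (X ∪ Y ∪ fb π (fb π S {i} ∪ fb π S (I.erase i)) {i}) ∧
        ¬ A ((X ∪ Y) \ fb π (fb π S {i} ∪ fb π S (I.erase i)) {i})) =
        ind (A (Y ∪ fb π S {i}) ∧ ¬ A Y) := by
      intro X hX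
      rw [← e2]
      have k1 : X ∪ Y ∪ fb π S {i} = Y ∪ fb π S {i} := by
        ext e
        simp only [Finset.mem_union]
        have := @hX e
        tauto
      have k2 : (X ∪ Y) \ fb π S {i} = Y := by
        ext e
        simp only [Finset.mem_union, Finset.mem_sdiff]
        have a1 := @hX e
        have a2 : e ∈ Y → e ∉ fb π S {i} := fun h => by
          intro h'
          have := (mem_fb.mp (hY h)).2
          rw [Finset.mem_erase] at this
          have := (mem_fb.mp h').2
          simp only [Finset.mem_singleton] at this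
          tauto
        tauto
      rw [k1, k2]
    rw [Ex_congr (fun X hX => e3 X hX), Ex_const]
  rw [e1]
  apply Ex_mono hp
  intro Y hY
  apply Ex_le_of_le hp
  intro X hX
  apply Ex_le_of_le hp
  intro X' hX'
  show |ind (A (X ∪ Y)) - ind (A (X' ∪ Y))| ≤ _
  have hYS : Y ⊆ S := hY.trans (Finset.filter_subset _ _)
  have hiS : fb π S {i} ⊆ S := Finset.filter_subset _ _
  have m1 : ∀ Z, Z ⊆ fb π S {i} → A (Z ∪ Y) → A (Y ∪ fb π S {i}) := by
    intro Z hZ h
    refine hA _ _ ?_ (Finset.union_subset hYS hiS) h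
    rw [Finset.union_comm]
    exact Finset.union_subset_union (Finset.Subset.refl _) hZ
  have m2 : ∀ Z, Z ⊆ fb π S {i} → A Y → A (Z ∪ Y) := by
    intro Z hZ h
    exact hA _ _ Finset.subset_union_right (Finset.union_subset (hZ.trans hiS) hYS) h
  by_cases ha : A (X ∪ Y) <;> by_cases hb : A (X' ∪ Y)
  · rw [ind_of ha, ind_of hb]; simp only [sub_self, abs_zero]; exact ind_nonneg _
  · rw [ind_of ha, ind_not_of hb, ind_of ⟨m1 X hX ha, fun h => hb (m2 X' hX' h)⟩]; norm_num
  · rw [ind_not_of ha, ind_of hb, ind_of ⟨m1 X' hX' hb, fun h => ha (m2 X hX h)⟩]; norm_num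
  · rw [ind_not_of ha, ind_not_of hb]; simp only [sub_self, abs_zero]; exact ind_nonneg _

end H974
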