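import Pool.Agent.H974R2.RSW2

/-!
A top-bottom crossing of a rectangle meets a primal path from a vertex `w` to the right side if a
dual path from the left side reaches a face next to `w`.
-/

set_option maxHeartbeats 400000

namespace H974

open Finset

/-- Faces around a vertex are joined by dual edges touching the vertex. -/
theorem around {m c d : ℤ} (hm : 0 < m) {H : Set Edg} {a b : ℤ} (ha : 0 ≤ a ∧ a ≤ m)
    (hH : ∀ e, e ∈ TBE 0 m c d → (src e = (a, b) ∨ tgt e = (a, b)) → e ∈ H)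
    {f g : Vtx} (hf1 : a - 1 ≤ f.1 ∧ f.1 ≤ a) (hf2 : b - 1 ≤ f.2 ∧ f.2 ≤ b)
    (hf : c ≤ f.2 ∧ f.2 < d)
    (hg1 : a - 1 ≤ g.1 ∧ g.1 ≤ a) (hg2 : b - 1 ≤ g.2 ∧ g.2 ≤ b) (hg : c ≤ g.2 ∧ g.2 < d) :
    DReach H f g := by
  have hrow : ∀ y, b - 1 ≤ y → y ≤ b → c ≤ y → y < d → DReach H (a - 1, y) (a, y) := by
    intro y h1 h2 h3 h4
    apply DAdj.reach
    refine ⟨(a, y, false), hH _ ?_ ?_, Or.inl ⟨rfl, rfl⟩⟩
    · simp only [mem_TBE_false]; omega
    · rcases eq_or_lt_of_le h2 with h | h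
      · left; rw [src_mk, h]
      · right
        have : y = b - 1 := by omega
        rw [tgt_false, this]; simp
  have hto : ∀ f : Vtx, (a - 1 ≤ f.1 ∧ f.1 ≤ a) → (b - 1 ≤ f.2 ∧ f.2 ≤ b) →
      (c ≤ f.2 ∧ f.2 < d) → DReach H f (a, f.2) := by
    rintro ⟨x, y⟩ h1 h2 h3
    simp only at h1 h2 h3 ⊢
    rcases eq_or_lt_of_le h1.2 with h | h
    · rw [h]; exact DReach.refl _ _
    · have : x = a - 1 := by omega
      rw [this]
      exact hrow y h2.1 h2.2 h3.1 h3.2
  have hcol : c ≤ b - 1 → b < d → DReach H (a, b - 1) (a, b) := by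
    intro h1 h2
    by_cases hx : a < m
    · apply DAdj.reach
      refine ⟨(a, b, true), hH _ ?_ (Or.inl rfl), Or.inl ⟨rfl, rfl⟩⟩
      simp only [mem_TBE_true]; omega
    · refine (hrow (b - 1) (by omega) (by omega) h1 (by omega)).symm.trans
        (DReach.trans (v := (a - 1, b)) ?_ (hrow b (by omega) (by omega) (by omega) h2))
      apply DAdj.reach
      refine ⟨(a - 1, b, true), hH _ ?_ (Or.inr (by simp)), Or.inl ⟨rfl, rfl⟩⟩
      simp only [mem_TBE_true]; omega
  have hcol' : ∀ y y', b - 1 ≤ y → y ≤ b → c ≤ y → y < d → b - 1 ≤ y' → y' ≤ b → c ≤ y' →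
      y' < d → DReach H (a, y) (a, y') := by
    intro y y' h1 h2 h3 h4 h5 h6 h7 h8
    rcases eq_or_lt_of_le h2 with h | h
    · rcases eq_or_lt_of_le h6 with h' | h'
      · rw [h, h']; exact DReach.refl _ _
      · have e1 : y' = b - 1 := by omega
        rw [h, e1]
        exact (hcol (by omega) (by omega)).symm
    · have e2 : y = b - 1 := by omega
      rcases eq_or_lt_of_le h6 with h' | h'
      · rw [h', e2]
        exact hcol (by omega) (by omega)
      · have e1 : y' = b - 1 := by omega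
        rw [e1, e2]; exact DReach.refl _ _
  exact (hto f hf1 hf2 hf).trans ((hcol' _ _ hf2.1 hf2.2 hf.1 hf.2 hg2.1 hg2.2 hg.1 hg.2).trans
    (hto g hg1 hg2 hg).symm)

theorem barrier {m c d : ℤ} (hm : 0 < m) (hcd : c < d) {G1 G2 H : Set Edg}
    (hG2 : G2 ⊆ ↑(RE 0 m c d)) (hH : ∀ e ∈ H, e ∈ TBE 0 m c d ∧ e ∉ G1)
    {x x' y0 y1 : ℤ} {f w : Vtx} (hx' : 0 ≤ x' ∧ x' ≤ m)
    (hy0 : c ≤ y0 ∧ y0 < d) 
    (h1 : Reach (G1 ∩ ↑(TBE 0 m c d)) (x, c) (x', d))
    (h2 : DReach H (-1, y0) f)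
    (hf1 : w.1 - 1 ≤ f.1 ∧ f.1 ≤ w.1) (hf2 : w.2 - 1 ≤ f.2 ∧ f.2 ≤ w.2)
    (hw : inR 0 m c d w) (h3 : Reach G2 w (m, y1)) :
    ∃ v, Reach (G1 ∩ ↑(TBE 0 m c d)) (x, c) v ∧ Reach G2 w v := by
  by_contra hcon
  push Not at hcon
  set C : Vtx → Prop := fun v => Reach (G1 ∩ ↑(TBE 0 m c d)) (x, c) v with hC
  set F1 : Set Edg := {e | e ∈ G1 ∧ C (src e) ∧ C (tgt e)} with hF1
  have hpath : Reach (F1 ∩ ↑(TBE 0 m c d)) (x, c) (x', d) := by
    have : ∀ u, Reach (G1 ∩ ↑(TBE 0 m c d)) (x, c) u →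
        C u ∧ Reach (F1 ∩ ↑(TBE 0 m c d)) (x, c) u := by
      intro u hu
      induction hu with
      | refl => exact ⟨Reach.refl _ _, Reach.refl _ _⟩
      | @tail w' w'' _ hstep ih =>
        obtain ⟨e, ⟨heF, heR⟩, hcase⟩ := hstep
        have hadj : Adj (G1 ∩ ↑(TBE 0 m c d)) w' w'' := ⟨e, ⟨heF, heR⟩, hcase⟩
        have hC'' : C w'' := ih.1.trans hadj.reach
        refine ⟨hC'', ih.2.trans (Adj.reach ⟨e, ⟨?_, heR⟩, hcase⟩)⟩
        rcases hcase with ⟨h3, h4⟩ | ⟨h3, h4⟩
        · show e ∈ G1 ∧ C (src e) ∧ C (tgt e)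
          rw [h3, h4]; exact ⟨heF, ih.1, hC''⟩
        · show e ∈ G1 ∧ C (src e) ∧ C (tgt e)
          rw [h3, h4]; exact ⟨heF, hC'', ih.1⟩
    exact (this _ h1).2
  set K : Set Edg := F1ᶜ ∩ ↑(TBE 0 m c d) with hK
  have hHK : H ⊆ K := by
    intro e he
    obtain ⟨k1, k2⟩ := hH e he
    exact ⟨fun h => k2 h.1, k1⟩
  have houtv : ∀ a b : ℤ, ¬ C (a, b) → ∀ e, e ∈ TBE 0 m c d →
      (src e = (a, b) ∨ tgt e = (a, b)) → e ∈ K := by
    intro a b hab e he hor
    refine ⟨?_, he⟩
    rintro ⟨-, k1, k2⟩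
    rcases hor with h | h
    · rw [h] at k1; exact hab k1
    · rw [h] at k2; exact hab k2
  -- the last face of the dual path is in the strip
  have hfs : ∀ g, DReach H (-1, y0) g → c ≤ g.2 ∧ g.2 < d := by
    intro g hg
    induction hg with
    | refl => exact hy0
    | @tail g g' _ hst ih =>
      obtain ⟨e, he, hcase⟩ := hst
      have heT := (hH e he).1
      obtain ⟨x1, y1, _ | _⟩ := e
      · rw [mem_TBE_false] at heT
        simp only [dsrc_false, dtgt_mk] at hcase
        rcases hcase with ⟨k1, k2⟩ | ⟨k1, k2⟩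
        · rw [← k2]; exact heT.2.2
        · rw [← k1]; exact heT.2.2
      · rw [mem_TBE_true] at heT
        simp only [dsrc_true, dtgt_mk] at hcase
        rcases hcase with ⟨k1, k2⟩ | ⟨k1, k2⟩
        · rw [← k2]; simp only; omega
        · rw [← k1]; simp only; omega
  have hfr := hfs f h2
  -- walk along the primal path
  have key : ∀ u, Reach G2 w u → inR 0 m c d u ∧
      ∃ g : Vtx, (u.1 - 1 ≤ g.1 ∧ g.1 ≤ u.1) ∧ (u.2 - 1 ≤ g.2 ∧ g.2 ≤ u.2) ∧
        (c ≤ g.2 ∧ g.2 < d) ∧ DReach K (-1, y0) g := by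
    intro u hu
    induction hu with
    | refl => exact ⟨hw, f, hf1, hf2, hfr, h2.mono hHK⟩
    | @tail u u' hu0 hst ih =>
      obtain ⟨hin, g, g1, g2, g3, g4⟩ := ih
      have hCu : ¬ C u := fun h => hcon u h hu0
      obtain ⟨a, b⟩ := u
      obtain ⟨e, he, hcase⟩ := hst
      have heR := hG2 he
      obtain ⟨x1, z1, _ | _⟩ := e
      · rw [Finset.mem_coe, mem_RE_false] at heR
        simp only [src_mk, tgt_false] at hcase
        have hface : DReach K g (x1, z1) := by
          refine around hm (H := K) (a := a) (b := b) hin.1 (houtv a b hCu) g1 g2 g3 ?_ ?_ ?_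
          · rcases hcase with ⟨k1, k2⟩ | ⟨k1, k2⟩
            · simp only [Prod.mk.injEq] at k1; simp only; omega
            · simp only [Prod.mk.injEq] at k2; simp only; omega
          · rcases hcase with ⟨k1, k2⟩ | ⟨k1, k2⟩
            · simp only [Prod.mk.injEq] at k1; simp only; omega
            · simp only [Prod.mk.injEq] at k2; simp only; omega
          · simp only; omega
        rcases hcase with ⟨k1, k2⟩ | ⟨k1, k2⟩
        · rw [← k2]
          refine ⟨⟨by simp only; omega, by simp only; omega⟩, (x1, z1), by simp only; omega,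
            by simp only; omega, by simp only; omega, g4.trans hface⟩
        · rw [← k1]
          refine ⟨⟨by simp only; omega, by simp only; omega⟩, (x1, z1), by simp only; omega,
            by simp only; omega, by simp only; omega, g4.trans hface⟩
      · rw [Finset.mem_coe, mem_RE_true] at heR
        simp only [src_mk, tgt_true] at hcase
        obtain ⟨r, hr1, hr2, hr3⟩ : ∃ r : ℤ, (z1 - 1 ≤ r ∧ r ≤ z1) ∧ c ≤ r ∧ r < d := by
          by_cases h : z1 < d
          · exact ⟨z1, by omega, by omega, h⟩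
          · exact ⟨z1 - 1, by omega, by omega, by omega⟩
        have hface : DReach K g (x1, r) := by
          refine around hm (H := K) (a := a) (b := b) hin.1 (houtv a b hCu) g1 g2 g3 ?_ ?_ ?_
          · rcases hcase with ⟨k1, k2⟩ | ⟨k1, k2⟩
            · simp only [Prod.mk.injEq] at k1; simp only; omega
            · simp only [Prod.mk.injEq] at k2; simp only; omega
          · rcases hcase with ⟨k1, k2⟩ | ⟨k1, k2⟩
            · simp only [Prod.mk.injEq] at k1; simp only; omega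
            · simp only [Prod.mk.injEq] at k2; simp only; omega
          · simp only; omega
        rcases hcase with ⟨k1, k2⟩ | ⟨k1, k2⟩
        · rw [← k2]
          refine ⟨⟨by simp only; omega, by simp only; omega⟩, (x1, r), by simp only; omega,
            by simp only; omega, by simp only; omega, g4.trans hface⟩
        · rw [← k1]
          refine ⟨⟨by simp only; omega, by simp only; omega⟩, (x1, r), by simp only; omega,
            by simp only; omega, by simp only; omega, g4.trans hface⟩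
  obtain ⟨hin, g, g1, g2, g3, g4⟩ := key _ h3
  have hCe : ¬ C (m, y1) := fun h => hcon _ h h3
  have hlast : DReach K g (m, g.2) :=
    around hm (H := K) (a := m) (b := y1) ⟨hm.le, le_rfl⟩ (houtv m y1 hCe) g1 g2 g3
      (by simp only; omega) g2 g3
  exact no_both_TB (F := F1) hm.le hx' hy0 hpath
    (by simpa only [hK, zero_sub] using g4.trans hlast)

end H974
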