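import Pool.Agent.H974R4.RswHigh2
import Pool.Agent.H974R4.Defs

/-!
The end of the scaling window is supercritical.
-/

set_option maxHeartbeats 400000

namespace H974

open Finset

/-- Gluing with a union bound. -/
theorem glue_union {q : ℝ} (h0 : 0 ≤ q) (h1 : q ≤ 1) {w1 w2 v h : ℤ} (hv : 0 < v) (hv1 : v ≤ w1)
    (hv2 : v ≤ w2) (hh0 : 0 < h) {a b c : ℝ} (h2 : 1 - a ≤ hh q w1 h) (h3 : 1 - b ≤ hh q w2 h)
    (h4 : 1 - c ≤ hh q h v) : 1 - (a + b + c) ≤ hh q (w1 + w2 - v) h := by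
  have g := hh_glue h0 h1 hv hv1 hv2 hh0
  have k1 := hh_nonneg h0 h1 w1 h
  have k2 := hh_nonneg h0 h1 w2 h
  have k3 := hh_nonneg h0 h1 h v
  have l1 := hh_le_one h0 h1 w1 h
  have l2 := hh_le_one h0 h1 w2 h
  have l3 := hh_le_one h0 h1 h v
  have m1 : 1 - (a + b) ≤ hh q w1 h * hh q w2 h := by
    nlinarith [mul_nonneg (sub_nonneg.mpr l1) (sub_nonneg.mpr l2)]
  have k4 := mul_nonneg k1 k2
  have l4 : hh q w1 h * hh q w2 h ≤ 1 := mul_le_one₀ l1 k2 l2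
  have m2 : 1 - (a + b + c) ≤ hh q w1 h * hh q w2 h * hh q h v := by
    nlinarith [mul_nonneg (sub_nonneg.mpr l4) (sub_nonneg.mpr l3)]
  linarith

/-- From the square to the `2 × 1` rectangle. -/
theorem eps_of_square : ∃ c : ℝ, 0 < c ∧ ∀ q : ℝ, 0 ≤ q → q ≤ 1 → ∀ k : ℕ, 1 ≤ k →
    1 - c ≤ hh q (2 * k + 1) (2 * k) → eps q (2 * k + 2) ≤ 1/100 := by
  obtain ⟨δ, hδ, hhigh⟩ := rsw_high (1/1200) (by norm_num)
  refine ⟨min δ (1/1200), lt_min hδ (by norm_num), ?_⟩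
  intro q h0 h1 k hk hc
  have hk' : (1:ℤ) ≤ k := by exact_mod_cast hk
  have c1 : 1 - δ ≤ hh q (2 * k + 1) (2 * k) := by
    have := min_le_left δ (1/1200 : ℝ); linarith
  have c2 : 1 - 1/1200 ≤ hh q (2 * k + 1) (2 * k) := by
    have := min_le_right δ (1/1200 : ℝ); linarith
  have a3 := hhigh q h0 h1 k hk c1
  have a4 := glue_union h0 h1 (w1 := 3 * k) (w2 := 3 * k) (v := 2 * k) (h := 2 * k + 1)
    (by omega) (by omega) (by omega) (by omega) a3 a3 c2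
  have a5 := glue_union h0 h1 (v := 2 * k) (w2 := 3 * k) (h := 2 * k + 1)
    (by omega) (by omega) (by omega) (by omega) a4 a3 c2
  have a6 := glue_union h0 h1 (v := 2 * k) (w2 := 3 * k) (h := 2 * k + 1)
    (by omega) (by omega) (by omega) (by omega) a5 a3 c2
  have a7 := glue_union h0 h1 (v := 2 * k) (w2 := 3 * k) (h := 2 * k + 1)
    (by omega) (by omega) (by omega) (by omega) a6 a3 c2
  have a8 := glue_union h0 h1 (v := 2 * k) (w2 := 3 * k) (h := 2 * k + 1)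
    (by omega) (by omega) (by omega) (by omega) a7 a3 c2
  have hw : 3 * (k:ℤ) + 3 * k - 2 * k + 3 * k - 2 * k + 3 * k - 2 * k + 3 * k - 2 * k + 3 * k
      - 2 * k = 8 * k := by ring
  rw [hw] at a8
  have a9 : hh q (8 * k) (2 * k + 1) ≤ hh q (4 * k + 4) (2 * k + 1) :=
    hh_mono h0 h1 (by omega) (by omega) le_rfl
  unfold eps
  have e1 : (2:ℤ) * ((2 * k + 2 : ℕ) : ℤ) = 4 * k + 4 := by push_cast; ring
  have e2 : ((2 * k + 2 : ℕ) : ℤ) - 1 = 2 * k + 1 := by push_cast; ring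
  rw [e1, e2]
  linarith

/-- The end of the window is supercritical, from the Russo-Seymour-Welsh theorem below it. -/
theorem super_of (hlow : ∀ c : ℝ, 0 < c → ∃ κ : ℝ, 0 < κ ∧ κ ≤ 1/2 ∧ ∀ q : ℝ, 1/4 ≤ q →
    q ≤ 3/4 → ∀ N : ℕ, (∀ k : ℕ, 1 ≤ k → 2 * k ≤ N → c ≤ hh q (2 * k + 1) (2 * k)) →
      ∀ h : ℕ, 1 ≤ h → h ≤ N → κ ≤ hh q (16 * h) h) :
    ∃ κ : ℝ, 0 < κ ∧ κ ≤ 1/2 ∧ ∀ q : ℝ, 1/2 ≤ q → q ≤ 3/4 → ∀ n : ℕ,
    ¬ H12S.Win q κ n → ∃ N : ℕ, 2 ≤ N ∧ N ≤ n + 2 ∧ eps q N ≤ 1/100 := by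
  obtain ⟨c0, hc0, hsq⟩ := eps_of_square
  set c := min c0 (1/2) with hc
  have hcp : 0 < c := lt_min hc0 (by norm_num)
  obtain ⟨κ, hκ, hκ2, hl⟩ := hlow c hcp
  refine ⟨κ, hκ, hκ2, ?_⟩
  intro q hq1 hq2 n hW
  have hpri : ∀ h : ℕ, 1 ≤ h → h ≤ n → κ ≤ hh q (16 * h) h := by
    apply hl q (by linarith) hq2 n
    intro k hk _
    have h1 := hh_half (2 * (k:ℤ)) (by omega)
    have h2 : hh (1/2) (2 * (k:ℤ) + 1) (2 * k) ≤ hh q (2 * k + 1) (2 * k) :=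
      hh_mono_param (by norm_num) hq1 (by linarith) _ _
    have h3 : c ≤ 1/2 := min_le_right _ _
    linarith
  have hdua : ¬ ∀ h : ℕ, 1 ≤ h → h ≤ n → κ ≤ hh (1 - q) (16 * h) h := by
    intro hd
    exact hW ⟨hκ, hκ2, by linarith, hq2, hpri, hd⟩
  have hex : ∃ k : ℕ, 1 ≤ k ∧ 2 * k ≤ n ∧ hh (1 - q) (2 * k + 1) (2 * k) < c := by
    by_contra hno
    push Not at hno
    exact hdua (hl (1 - q) (by linarith) (by linarith) n hno)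
  obtain ⟨k, hk1, hk2, hk3⟩ := hex
  refine ⟨2 * k + 2, by omega, by omega, ?_⟩
  apply hsq q (by linarith) (by linarith) k hk1
  have hd := hh_dual (q := q) (w := 2 * (k:ℤ) + 1) (h := 2 * k) (by omega) (by omega)
  have e1 : 2 * (k:ℤ) + 1 - 1 = 2 * k := by ring
  rw [e1] at hd
  have h4 : c ≤ c0 := min_le_left _ _
  rw [hd]
  linarith

/-- The interface statement `R3` of `Pool.Agent.H31R3.Kes`. -/
theorem far_of (hs : ∃ κ : ℝ, 0 < κ ∧ κ ≤ 1/2 ∧ ∀ q : ℝ, 1/2 ≤ q → q ≤ 3/4 → ∀ n : ℕ,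
    ¬ H12S.Win q κ n → ∃ N : ℕ, 2 ≤ N ∧ N ≤ n + 2 ∧ eps q N ≤ 1/100) (hW2 : StW2) :
    ∀ ε : ℝ, 0 < ε → ∃ h0 : ℝ, 0 < h0 ∧ ∀ h : ℝ, 0 < h → h < h0 →
      ∃ N : ℕ, 2 ≤ N ∧ (N:ℝ) ≤ h^(-(4/3) - ε) ∧ eps (1/2 + h) N ≤ 1/100 := by
  intro ε hε
  obtain ⟨κ, hκ, hκ2, hs⟩ := hs
  obtain ⟨h1, hh1, hw⟩ := hW2 κ hκ hκ2 (ε/2) (by linarith)
  -- `h^(-(4/3) - ε/2) + 2 ≤ h^(-(4/3) - ε)` for small `h`
  set t : ℝ := (1/3 : ℝ) ^ (2/ε) with ht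
  have htp : 0 < t := Real.rpow_pos_of_pos (by norm_num) _
  refine ⟨min h1 (min (1/4) t), lt_min hh1 (lt_min (by norm_num) htp), ?_⟩
  intro h hh hlt
  have l1 : h < h1 := lt_of_lt_of_le hlt (min_le_left _ _)
  have l2 : h < 1/4 := lt_of_lt_of_le hlt ((min_le_right _ _).trans (min_le_left _ _))
  have l3 : h < t := lt_of_lt_of_le hlt ((min_le_right _ _).trans (min_le_right _ _))
  obtain ⟨n, hn, hnW⟩ := hw (1/2 + h) (by linarith) (by linarith)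
  have e1 : (1/2 + h - 1/2 : ℝ) = h := by ring
  rw [e1] at hn
  obtain ⟨N, hN2, hNn, hNe⟩ := hs (1/2 + h) (by linarith) (by linarith) n hnW
  refine ⟨N, hN2, ?_, hNe⟩
  have hN : (N:ℝ) ≤ n + 2 := by exact_mod_cast hNn
  have p1 : 1 ≤ h ^ (-(4/3 : ℝ) - ε/2) :=
    Real.one_le_rpow_of_pos_of_le_one_of_nonpos hh (by linarith) (by linarith)
  have p2 : 3 ≤ h ^ (-(ε/2)) := by
    have q1 : h ^ (ε/2) ≤ 1/3 := by
      calc h ^ (ε/2) ≤ t ^ (ε/2) := Real.rpow_le_rpow hh.le l3.le (by linarith)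
        _ = 1/3 := by
          rw [ht, ← Real.rpow_mul (by norm_num)]
          have : 2 / ε * (ε / 2) = 1 := by field_simp
          rw [this, Real.rpow_one]
    rw [Real.rpow_neg hh.le]
    have q2 : 0 < h ^ (ε/2) := Real.rpow_pos_of_pos hh _
    rw [le_inv_comm₀ (by norm_num) q2]
    linarith
  have p3 : h ^ (-(4/3 : ℝ) - ε) = h ^ (-(4/3 : ℝ) - ε/2) * h ^ (-(ε/2)) := by
    rw [← Real.rpow_add hh]; congr 1; ring
  rw [p3]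
  nlinarith

end H974
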