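import Pool.Agent.H974R4.RswLow
import Pool.Agent.H974R4.Super

/-!
The end of the scaling window is supercritical: final form.
-/

namespace H974

open Finset

theorem super_scale : ∃ κ : ℝ, 0 < κ ∧ κ ≤ 1/2 ∧ ∀ q : ℝ, 1/2 ≤ q → q ≤ 3/4 → ∀ n : ℕ,
    ¬ H12S.Win q κ n → ∃ N : ℕ, 2 ≤ N ∧ N ≤ n + 2 ∧ eps q N ≤ 1/100 := super_of rsw_low

/-- The interface statement `R3` of `Pool.Agent.H31R3.Kes`, from the upper bound `StW2` on the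
correlation length. -/
theorem far_of_W2 (hW2 : StW2) :
    ∀ ε : ℝ, 0 < ε → ∃ h0 : ℝ, 0 < h0 ∧ ∀ h : ℝ, 0 < h → h < h0 →
      ∃ N : ℕ, 2 ≤ N ∧ (N:ℝ) ≤ h^(-(4/3) - ε) ∧ eps (1/2 + h) N ≤ 1/100 :=
  far_of super_scale hW2

end H974
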