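import Mathlib
import Pool.Agent.H922R2.OPC.Stubs

/-!
# CHR: symmetric functions of the conjugates of `h` are polynomials in `x, f`
-/

set_option autoImplicit false

open MvPolynomial

namespace Pool.Agent.H974R4.OPCCHR
open Pool.Agent.H922R2.OPC

/-- symmetric functions of values of a polynomial at the roots of a polynomial -/
theorem symm_vals {A K : Type} [CommRing A] [CommRing K] [Algebra A K] (n : ℕ) (y : Fin n → K)
    (hy : ∀ l : ℕ, ∃ c : A, algebraMap A K c =
      (∏ i, (Polynomial.X - Polynomial.C (y i))).coeff l) (g : Polynomial A) (l : ℕ) :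
    ∃ c : A, algebraMap A K c =
      (∏ i, (Polynomial.X - Polynomial.C (Polynomial.aeval (y i) g))).coeff l := by
  classical
  set Pi : Polynomial (MvPolynomial (Fin n) A) :=
    ∏ i : Fin n, (Polynomial.X - Polynomial.C (Polynomial.aeval (MvPolynomial.X i) g)) with hPi
  have hsym : (Pi.coeff l).IsSymmetric := by
    intro e
    have h1 : Pi.map (rename (R := A) e : MvPolynomial (Fin n) A →ₐ[A] MvPolynomial (Fin n) A).toRingHom = Pi := by
      rw [hPi, Polynomial.map_prod]
      rw [← Equiv.prod_comp e (fun i => (Polynomial.X - Polynomial.C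
        (Polynomial.aeval (MvPolynomial.X i : MvPolynomial (Fin n) A) g)))]
      refine Finset.prod_congr rfl fun i _ => ?_
      rw [Polynomial.map_sub, Polynomial.map_X, Polynomial.map_C]
      congr 2
      show rename e (Polynomial.aeval (MvPolynomial.X i : MvPolynomial (Fin n) A) g) = _
      rw [← Polynomial.aeval_algHom_apply, rename_X]
    have h2 := congrArg (fun p => Polynomial.coeff p l) h1
    simp only [Polynomial.coeff_map] at h2
    exact h2
  obtain ⟨q, hq⟩ := MvPolynomial.esymmAlgHom_surjective (σ := Fin n) (n := n) A (by simp)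
    ⟨Pi.coeff l, hsym⟩
  have hq' : Pi.coeff l = aeval (fun i : Fin n ↦ esymm (Fin n) A (i + 1)) q := by
    rw [← esymmAlgHom_apply, hq]
  have h3 : (∏ i, (Polynomial.X - Polynomial.C (Polynomial.aeval (y i) g))).coeff l =
      aeval y (Pi.coeff l) := by
    have h4 : Pi.map (aeval (R := A) y).toRingHom =
        ∏ i, (Polynomial.X - Polynomial.C (Polynomial.aeval (y i) g)) := by
      rw [hPi, Polynomial.map_prod]
      refine Finset.prod_congr rfl fun i _ => ?_
      rw [Polynomial.map_sub, Polynomial.map_X, Polynomial.map_C]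
      congr 2
      show aeval y (Polynomial.aeval (MvPolynomial.X i : MvPolynomial (Fin n) A) g) = _
      rw [← Polynomial.aeval_algHom_apply, aeval_X]
    rw [← h4, Polynomial.coeff_map]
    rfl
  have hes : ∀ i : Fin n, ∃ c : A, algebraMap A K c = aeval y (esymm (Fin n) A (i + 1)) := by
    intro i
    rw [aeval_esymm_eq_multiset_esymm]
    have hcard : Multiset.card (Finset.univ.val.map y) = n := by simp
    have h5 := Multiset.prod_X_sub_C_coeff (Finset.univ.val.map y) (k := n - (i + 1))
      (by rw [hcard]; omega)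
    rw [hcard] at h5
    have h6 : n - (n - ((i : ℕ) + 1)) = i + 1 := by omega
    rw [h6] at h5
    have h7 : ((Finset.univ.val.map y).map (fun t => Polynomial.X - Polynomial.C t)).prod =
        ∏ i, (Polynomial.X - Polynomial.C (y i)) := by
      rw [Multiset.map_map]
      rfl
    rw [h7] at h5
    obtain ⟨c, hc⟩ := hy (n - (i + 1))
    refine ⟨(-1) ^ ((i : ℕ) + 1) * c, ?_⟩
    rw [map_mul, hc, h5, map_pow, map_neg, map_one, ← mul_assoc, ← mul_pow]
    simp
  choose c hc using hes
  rw [h3, hq']
  refine ⟨aeval c q, ?_⟩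
  have h8 : aeval y (aeval (fun i : Fin n ↦ esymm (Fin n) A (i + 1)) q) =
      aeval (fun i : Fin n => aeval y (esymm (Fin n) A (i + 1))) q := by
    rw [← AlgHom.comp_apply, comp_aeval]
  rw [h8]
  have h9 : (fun i : Fin n => aeval y (esymm (Fin n) A (i + 1))) = fun i => algebraMap A K (c i) := by
    funext i
    exact (hc i).symm
  rw [h9]
  have := MvPolynomial.aeval_algebraMap_apply (B := K) c q
  exact this.symm

/-- generic form -/
theorem gen {k K : Type} [Field k] [CommRing K] [Algebra k K] (n : ℕ) (x0 la : K) (y : Fin n → K)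
    (f : B k) (hprod : (aeval ![Polynomial.C x0, Polynomial.X] f : Polynomial K) - Polynomial.C la =
      ∏ i, (Polynomial.X - Polynomial.C (y i))) (h : B k) (l : ℕ) :
    ∃ g : B k, (∏ i, (Polynomial.X - Polynomial.C (aeval ![x0, y i] h))).coeff l =
      aeval ![x0, la] g := by
  set S : Subalgebra k K := (aeval ![x0, la] : B k →ₐ[k] K).range with hS
  have hx : x0 ∈ S := ⟨X 0, by
    show aeval ![x0, la] (X 0) = _
    rw [aeval_X]
    rfl⟩
  have hlam : la ∈ S := ⟨X 1, by
    show aeval ![x0, la] (X 1) = _
    rw [aeval_X]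
    rfl⟩
  let E : B k →ₐ[k] Polynomial S := aeval ![Polynomial.C (⟨x0, hx⟩ : S), Polynomial.X]
  have hEmap : ∀ p : B k, (E p).map (algebraMap S K) =
      aeval ![Polynomial.C x0, Polynomial.X] p := by
    intro p
    have : (Polynomial.mapRingHom (algebraMap S K)).comp E.toRingHom =
        (aeval ![Polynomial.C x0, Polynomial.X] : B k →ₐ[k] Polynomial K).toRingHom := by
      apply MvPolynomial.ringHom_ext
      · intro r
        show (E (C r)).map (algebraMap S K) = aeval ![Polynomial.C x0, Polynomial.X] (C r)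
        simp only [E]
        rw [aeval_C, aeval_C, Polynomial.algebraMap_apply, Polynomial.map_C,
          Polynomial.algebraMap_apply]
        rfl
      · intro j
        show (E (X j)).map (algebraMap S K) = aeval ![Polynomial.C x0, Polynomial.X] (X j)
        simp only [E]
        rw [aeval_X, aeval_X]
        fin_cases j
        · show (Polynomial.C (⟨x0, hx⟩ : S)).map (algebraMap S K) = Polynomial.C x0
          rw [Polynomial.map_C]
          rfl
        · show (Polynomial.X : Polynomial S).map (algebraMap S K) = Polynomial.X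
          rw [Polynomial.map_X]
    exact RingHom.congr_fun this p
  have hEval : ∀ (z : K) (p : B k), Polynomial.aeval z (E p) = aeval ![x0, z] p := by
    intro z p
    have : ((Polynomial.aeval z : Polynomial S →ₐ[S] K).toRingHom).comp E.toRingHom =
        (aeval ![x0, z] : B k →ₐ[k] K).toRingHom := by
      apply MvPolynomial.ringHom_ext
      · intro r
        show Polynomial.aeval z (E (C r)) = aeval ![x0, z] (C r)
        simp only [E]
        rw [aeval_C, aeval_C]
        rw [Polynomial.algebraMap_apply, Polynomial.aeval_C]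
        rfl
      · intro j
        show Polynomial.aeval z (E (X j)) = aeval ![x0, z] (X j)
        simp only [E]
        rw [aeval_X, aeval_X]
        fin_cases j
        · show Polynomial.aeval z (Polynomial.C (⟨x0, hx⟩ : S)) = x0
          rw [Polynomial.aeval_C]
          rfl
        · show Polynomial.aeval z (Polynomial.X : Polynomial S) = z
          rw [Polynomial.aeval_X]
    exact RingHom.congr_fun this p
  have hy : ∀ l : ℕ, ∃ c : S, algebraMap S K c =
      (∏ i : Fin n, (Polynomial.X - Polynomial.C (y i))).coeff l := by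
    intro l
    rw [← hprod]
    refine ⟨(E f - Polynomial.C (⟨la, hlam⟩ : S)).coeff l, ?_⟩
    rw [← Polynomial.coeff_map, Polynomial.map_sub, hEmap, Polynomial.map_C]
    rfl
  obtain ⟨⟨_, g, rfl⟩, hg⟩ := symm_vals n y hy (E h) l
  refine ⟨g, ?_⟩
  have h1 : (∏ i : Fin n, (Polynomial.X - Polynomial.C (Polynomial.aeval (y i) (E h)))) =
      ∏ i, (Polynomial.X - Polynomial.C (aeval ![x0, y i] h)) := by
    refine Finset.prod_congr rfl fun i _ => ?_
    rw [hEval]
  rw [h1] at hg
  exact hg.symm

section
variable {k : Type} [Field k]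

theorem algMap_L (a : k) : algebraMap k (L k) a = HahnSeries.single 0 (Polynomial.C a) := by
  rw [HahnSeries.algebraMap_apply', PowerSeries.algebraMap_apply, HahnSeries.ofPowerSeries_C]
  rfl

theorem rot_single (c : k) (i : ℤ) (p : Polynomial k) :
    rot c (HahnSeries.single i p : L k) = HahnSeries.single i (Polynomial.C (c ^ i) * p) := by
  ext1
  funext j
  show Polynomial.C (c ^ j) * (HahnSeries.single i p : L k).coeff j = _
  by_cases h : j = i
  · subst h
    rw [HahnSeries.coeff_single_same, HahnSeries.coeff_single_same]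
  · rw [HahnSeries.coeff_single_of_ne h, HahnSeries.coeff_single_of_ne h, mul_zero]

theorem rot_ev (hR : S_ROT k) {n : ℕ} (φ : L k) {ζ : k} (hζ : IsPrimitiveRoot ζ n) (hn : 0 < n)
    (i : ℕ) (h : B k) :
    rot (ζ ^ i) (ev n φ h) = aeval ![tp (-(n : ℤ)), rot (ζ ^ i) φ] h := by
  have hz : ζ ≠ 0 := hζ.ne_zero hn.ne'
  obtain ⟨R, hR⟩ := hR (ζ ^ i) (pow_ne_zero _ hz)
  rw [← hR]
  have : R.comp (ev n φ).toRingHom =
      (aeval ![tp (-(n : ℤ)), rot (ζ ^ i) φ] : B k →ₐ[k] L k).toRingHom := by
    apply MvPolynomial.ringHom_ext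
    · intro r
      show R (ev n φ (C r)) = aeval ![tp (-(n : ℤ)), rot (ζ ^ i) φ] (C r)
      unfold ev
      rw [aeval_C, aeval_C, hR, algMap_L, rot_single]
      simp
    · intro j
      show R (ev n φ (X j)) = aeval ![tp (-(n : ℤ)), rot (ζ ^ i) φ] (X j)
      unfold ev
      rw [aeval_X, aeval_X, hR]
      fin_cases j
      · show rot (ζ ^ i) (tp (-(n : ℤ))) = tp (-(n : ℤ))
        unfold tp
        rw [rot_single]
        have : (ζ ^ i) ^ (-(n : ℤ)) = 1 := by
          rw [zpow_neg, zpow_natCast, ← pow_mul, mul_comm, pow_mul, hζ.pow_eq_one, one_pow,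
            inv_one]
        rw [this]
        simp
      · rfl
  exact RingHom.congr_fun this h

end

theorem chr (k : Type) [Field k] [IsAlgClosed k] [CharZero k] :
    Pool.Agent.H922R2.OPC.S_CHR k := by
  intro hR hE _ n f φ ζ hOP h l
  have hf := hE n f φ ζ hOP
  obtain ⟨hn, hζ, hprod⟩ := hOP
  unfold evY at hprod
  rw [Finset.prod_range (fun i => (Polynomial.X - Polynomial.C (rot (ζ ^ i) φ)))] at hprod
  obtain ⟨g, hg⟩ := gen n (tp (-(n : ℤ))) (lam : L k) (fun i : Fin n => rot (ζ ^ (i : ℕ)) φ) f
    hprod h l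
  refine ⟨g, ?_⟩
  have h1 : (∏ i : Fin n, (Polynomial.X - Polynomial.C
      (aeval ![tp (-(n : ℤ)), rot (ζ ^ (i : ℕ)) φ] h))) =
      ∏ i ∈ Finset.range n, (Polynomial.X - Polynomial.C (rot (ζ ^ i) (ev n φ h))) := by
    rw [Finset.prod_range]
    refine Finset.prod_congr rfl fun i _ => ?_
    rw [rot_ev hR φ hζ hn]
  rw [← h1, hg]
  have h2 : (ev n φ : B k →ₐ[k] L k).comp (aeval ![X 0, f] : B k →ₐ[k] B k) =
      aeval ![tp (-(n : ℤ)), lam] := by
    apply MvPolynomial.algHom_ext
    intro j
    rw [AlgHom.comp_apply, aeval_X, aeval_X]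
    fin_cases j
    · show ev n φ (X 0) = tp (-(n : ℤ))
      unfold ev
      rw [aeval_X]
      rfl
    · show ev n φ f = lam
      exact hf
  rw [← h2]
  rfl

end Pool.Agent.H974R4.OPCCHR
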