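import Pool.Agent.H974R4.UpLink

/-!
The Russo-Seymour-Welsh theorem for crossing probabilities close to one, at a single scale.
-/

set_option maxHeartbeats 400000

namespace H974

open Finset

/-- Faces reached from the left side of `[0, W] × [0, n]` by closed dual paths. -/
def DualW (W n : ℤ) (F : Finset Edg) (f : Vtx) : Prop :=
  ∃ y, (0 ≤ y ∧ y < n) ∧ DReach ((↑F : Set Edg)ᶜ ∩ ↑(TBE 0 W 0 n)) (-1, y) f

open Classical in
/-- The explored edges. -/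
noncomputable def KW (W n : ℤ) (F : Finset Edg) : Finset Edg :=
  (TBE 0 W 0 n).filter (fun e => DualW W n F (dsrc e) ∨ DualW W n F (dtgt e))

theorem mem_KW {W n : ℤ} {F : Finset Edg} {e : Edg} :
    e ∈ KW W n F ↔ e ∈ TBE 0 W 0 n ∧ (DualW W n F (dsrc e) ∨ DualW W n F (dtgt e)) := by
  simp only [KW, Finset.mem_filter]

/-- No closed dual left-right crossing. -/
def goodW (W n : ℤ) (F : Finset Edg) : Prop := ∀ y, 0 ≤ y → y < n → ¬ DualW W n F (W, y)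

theorem goodW_of_TBc {W n : ℤ} (hW : 0 ≤ W) {F : Finset Edg} (h : TBc 0 W 0 n F) :
    goodW W n F := by
  rintro y hy1 hy2 ⟨y', hy', hd⟩
  obtain ⟨x, x', hx, hx', hr⟩ := h
  exact no_both_TB hW hx' hy' hr (by simpa using hd)

theorem DualW_closed {W n : ℤ} {F : Finset Edg} {e : Edg} (he : e ∈ TBE 0 W 0 n) (heF : e ∉ F) :
    DualW W n F (dsrc e) ↔ DualW W n F (dtgt e) := by
  have hm : e ∈ ((↑F : Set Edg)ᶜ ∩ ↑(TBE 0 W 0 n)) := ⟨heF, he⟩
  constructor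
  · rintro ⟨y, hy, h⟩
    exact ⟨y, hy, h.trans (DAdj.reach ⟨e, hm, Or.inl ⟨rfl, rfl⟩⟩)⟩
  · rintro ⟨y, hy, h⟩
    exact ⟨y, hy, h.trans (DAdj.reach ⟨e, hm, Or.inr ⟨rfl, rfl⟩⟩)⟩

theorem DualW_stop {W n : ℤ} {F F' : Finset Edg} (h : F ∩ KW W n F = F' ∩ KW W n F) (f : Vtx) :
    DualW W n F f ↔ DualW W n F' f := by
  have hmem : ∀ e ∈ KW W n F, (e ∈ F ↔ e ∈ F') := by
    intro e he
    have := Finset.ext_iff.mp h e
    simp only [Finset.mem_inter, he, and_true] at this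
    exact this
  constructor
  · rintro ⟨y, hy, hr⟩
    refine ⟨y, hy, ?_⟩
    have : ∀ g, DReach ((↑F : Set Edg)ᶜ ∩ ↑(TBE 0 W 0 n)) (-1, y) g →
        DualW W n F g ∧ DReach ((↑F' : Set Edg)ᶜ ∩ ↑(TBE 0 W 0 n)) (-1, y) g := by
      intro g hg
      induction hg with
      | refl => exact ⟨⟨y, hy, DReach.refl _ _⟩, DReach.refl _ _⟩
      | @tail g g' _ hst ih =>
        obtain ⟨e, ⟨heF, heT⟩, hcase⟩ := hst
        have hD' : DualW W n F g' := by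
          obtain ⟨y', hy', hr'⟩ := ih.1
          exact ⟨y', hy', hr'.trans (DAdj.reach ⟨e, ⟨heF, heT⟩, hcase⟩)⟩
        refine ⟨hD', ih.2.trans (DAdj.reach ⟨e, ⟨?_, heT⟩, hcase⟩)⟩
        intro heF'
        apply heF
        have heK : e ∈ KW W n F := by
          rw [mem_KW]
          refine ⟨heT, ?_⟩
          rcases hcase with ⟨h1, h2⟩ | ⟨h1, h2⟩
          · left; rw [h1]; exact ih.1
          · left; rw [h1]; exact hD'
        exact (hmem e heK).mpr heF'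
    exact (this f hr).2
  · rintro ⟨y, hy, hr⟩
    have : ∀ g, DReach ((↑F' : Set Edg)ᶜ ∩ ↑(TBE 0 W 0 n)) (-1, y) g → DualW W n F g := by
      intro g hg
      induction hg with
      | refl => exact ⟨y, hy, DReach.refl _ _⟩
      | @tail g g' _ hst ih =>
        obtain ⟨e, ⟨heF, heT⟩, hcase⟩ := hst
        have heK : e ∈ KW W n F := by
          rw [mem_KW]
          refine ⟨heT, ?_⟩
          rcases hcase with ⟨h1, h2⟩ | ⟨h1, h2⟩
          · left; rw [h1]; exact ih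
          · right; rw [h2]; exact ih
        obtain ⟨y', hy', hr'⟩ := ih
        refine ⟨y', hy', hr'.trans (DAdj.reach ⟨e, ⟨?_, heT⟩, hcase⟩)⟩
        intro h3
        exact heF ((hmem e heK).mp h3)
    exact this f hr

theorem KW_stop {W n : ℤ} {F F' : Finset Edg} (h : F ∩ KW W n F = F' ∩ KW W n F) :
    KW W n F' = KW W n F := by
  ext e
  rw [mem_KW, mem_KW, DualW_stop h, DualW_stop h]

theorem KW_subset (W n : ℤ) (F : Finset Edg) : KW W n F ⊆ TBE 0 W 0 n := by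
  intro e he
  exact (mem_KW.mp he).1

theorem goodW_stop {W n : ℤ} {F F' : Finset Edg} (h : F ∩ KW W n F = F' ∩ KW W n F) :
    goodW W n F ↔ goodW W n F' := by
  unfold goodW
  constructor
  · intro h1 y hy hy' h2
    exact h1 y hy hy' ((DualW_stop h _).mpr h2)
  · intro h1 y hy hy' h2
    exact h1 y hy hy' ((DualW_stop h _).mp h2)

theorem KW_col {W n : ℤ} (hn : 0 < n) (hW : 0 ≤ W) (F : Finset Edg) :
    ∀ y, 0 ≤ y → y ≤ n → WW (KW W n F) (0, y) := by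
  intro y hy hyn
  by_cases h : y < n
  · refine ⟨(0, y, false), ?_, Or.inl rfl⟩
    rw [mem_KW]
    refine ⟨by simp only [mem_TBE_false]; omega, Or.inl ?_⟩
    exact ⟨y, ⟨hy, h⟩, by simpa using DReach.refl _ _⟩
  · refine ⟨(0, y - 1, false), ?_, Or.inr (by simp)⟩
    rw [mem_KW]
    refine ⟨by simp only [mem_TBE_false]; omega, Or.inl ?_⟩
    exact ⟨y - 1, by omega, by simpa using DReach.refl _ _⟩

/-- Boundary edges of the explored region. -/
def BW (W n : ℤ) (F : Finset Edg) : Set Edg :=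
  {e | e ∈ TBE 0 W 0 n ∧ ¬ (DualW W n F (dsrc e) ↔ DualW W n F (dtgt e))}

theorem BW_F {W n : ℤ} {F : Finset Edg} : BW W n F ⊆ ↑F := by
  rintro e ⟨h1, h2⟩
  by_contra h3
  exact h2 (DualW_closed h1 h3)

theorem BW_K {W n : ℤ} {F : Finset Edg} : BW W n F ⊆ ↑(KW W n F) := by
  rintro e ⟨h1, h2⟩
  rw [Finset.mem_coe, mem_KW]
  refine ⟨h1, ?_⟩
  by_contra h3
  push Not at h3
  exact h2 ⟨fun h => absurd h h3.1, fun h => absurd h h3.2⟩

theorem dl_dl (B : Set Edg) : dl '' (dl '' B) = (trl (-1) (-1)).φ '' B := by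
  rw [Set.image_image]
  apply Set.image_congr
  rintro ⟨x, y, _ | _⟩ _
  · simp only [dl_f, dl_t, trl_φ]; rfl
  · simp only [dl_f, dl_t, trl_φ]; rfl

/-- The boundary of the explored region contains a top-bottom crossing. -/
theorem bcross {W n : ℤ} (hn : 0 < n) (hW : 0 ≤ W) {F : Finset Edg} (hg : goodW W n F) :
    ∃ x x', (0 ≤ x ∧ x ≤ W) ∧ (0 ≤ x' ∧ x' ≤ W) ∧ Reach (BW W n F) (x, 0) (x', n) := by
  obtain ⟨x, x', hx, hx', h⟩ := dual_crossing (a := -1) (b := W) (c := 0) (d := n - 1)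
    (by omega) (by omega) (fun f => DualW W n F f)
    (fun y h1 h2 => ⟨y, by omega, DReach.refl _ _⟩) (fun y h1 h2 => hg y h1 (by omega))
  have h1 : (bdry (fun f => DualW W n F f) ∩ ↑(LRE (-1) W 0 (n - 1)) : Set Edg)
      = dl '' (BW W n F) := by
    have h2 : LRE (-1) W 0 (n - 1) = dmp (TBE 0 W 0 n) := by
      rw [dmp_TBE]; congr 1
    rw [h2]
    ext e
    constructor
    · rintro ⟨k1, k2⟩
      rw [Finset.mem_coe, mem_dmp] at k2
      refine ⟨dl.symm e, ⟨k2, ?_⟩, by simp⟩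
      intro hh
      apply k1
      have e1 : src e = dsrc (dl.symm e) := by rw [← src_dl]; simp
      have e2 : tgt e = dtgt (dl.symm e) := by rw [← tgt_dl]; simp
      rw [e1, e2]
      exact hh
    · rintro ⟨e', ⟨k1, k2⟩, rfl⟩
      refine ⟨?_, ?_⟩
      · intro hh
        apply k2
        rw [src_dl, tgt_dl] at hh
        exact hh
      · rw [Finset.mem_coe, mem_dmp, Equiv.symm_apply_apply]
        exact k1
  rw [h1, ← reach_dl, dl_dl] at h
  have e1 : ((x, 0 - 1) : Vtx) = (trl (-1) (-1)).ψ (x + 1, 0) := by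
    rw [trl_ψ]; exact Prod.ext (by simp) (by simp)
  have e2 : ((x', n - 1) : Vtx) = (trl (-1) (-1)).ψ (x' + 1, n) := by
    rw [trl_ψ]; exact Prod.ext (by simp) (by simp only; ring)
  rw [e1, e2, LSym.reach_iff] at h
  exact ⟨x + 1, x' + 1, by omega, by omega, h⟩

theorem KW_touch {W n : ℤ} {F : Finset Edg} : ∀ w, WW (KW W n F) w → ∃ y0 f, (0 ≤ y0 ∧ y0 < n) ∧
      DReach ((↑F : Set Edg)ᶜ ∩ ↑(TBE 0 W 0 n)) (-1, y0) f ∧
      (w.1 - 1 ≤ f.1 ∧ f.1 ≤ w.1) ∧ (w.2 - 1 ≤ f.2 ∧ f.2 ≤ w.2) := by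
  rintro w ⟨e, heK, hew⟩
  rw [mem_KW] at heK
  obtain ⟨-, heD⟩ := heK
  obtain ⟨x1, y1, _ | _⟩ := e
  · simp only [src_mk, tgt_false] at hew
    simp only [dsrc_false, dtgt_mk] at heD
    rcases heD with ⟨y, hy, h⟩ | ⟨y, hy, h⟩
    · refine ⟨y, _, hy, h, ?_⟩
      rcases hew with hw | hw <;> (rw [← hw]; simp only; omega)
    · refine ⟨y, _, hy, h, ?_⟩
      rcases hew with hw | hw <;> (rw [← hw]; simp only; omega)
  · simp only [src_mk, tgt_true] at hew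
    simp only [dsrc_true, dtgt_mk] at heD
    rcases heD with ⟨y, hy, h⟩ | ⟨y, hy, h⟩
    · refine ⟨y, _, hy, h, ?_⟩
      rcases hew with hw | hw <;> (rw [← hw]; simp only; omega)
    · refine ⟨y, _, hy, h, ?_⟩
      rcases hew with hw | hw <;> (rw [← hw]; simp only; omega)

theorem rfy_rfy (k : ℤ) (F : Finset Edg) : (rfy k).mp ((rfy k).mp F) = F := by
  ext ⟨x, y, _ | _⟩
  · simp only [LSym.mem_mp, rfy_φsf]
    have : k - (k - y - 1) - 1 = y := by ring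
    rw [this]
  · simp [LSym.mem_mp]

theorem WW_rfy {n : ℤ} {K : Finset Edg} {w : Vtx} (h : WW ((rfy n).mp K) w) :
    WW K ((rfy n).ψ w) := by
  obtain ⟨e, he, hew⟩ := h
  rw [LSym.mem_mp] at he
  have hψ : ∀ u : Vtx, (rfy n).ψ ((rfy n).ψ u) = u := by
    rintro ⟨a, b⟩; simp
  have hc := (rfy n).compat ((rfy n).φ.symm e)
  rw [Equiv.apply_symm_apply] at hc
  refine ⟨_, he, ?_⟩
  rcases hc with ⟨c1, c2⟩ | ⟨c1, c2⟩ <;> rcases hew with hw | hw
  · left; rw [← hw, c1, hψ]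
  · right; rw [← hw, c2, hψ]
  · right; rw [← hw, c1, hψ]
  · left; rw [← hw, c2, hψ]

theorem WW_rfy' {n : ℤ} {K : Finset Edg} {w : Vtx} (h : WW K ((rfy n).ψ w)) :
    WW ((rfy n).mp K) w := by
  have hψ : ∀ u : Vtx, (rfy n).ψ ((rfy n).ψ u) = u := by
    rintro ⟨a, b⟩; simp
  have := WW_rfy (n := n) (K := (rfy n).mp K) (w := (rfy n).ψ w) (by rw [rfy_rfy]; exact h)
  rwa [hψ] at this

theorem high_det {n m W : ℤ} (hn : 0 < n) (hW : 0 ≤ W) (hm : 0 < m) (hWm : W ≤ m)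
    {F : Finset Edg} (hg : goodW W n F)
    (hYU : YY n m (KW W n F) F) (hYD : YY n m ((rfy n).mp (KW W n F)) ((rfy n).mp F))
    (hρU : TBc 0 m 0 (2 * n) F) (hρD : TBc 0 m (-n) n F) : TBc 0 m (-n) (2 * n) F := by
  obtain ⟨x, x', hx, hx', hγ⟩ := bcross hn hW hg
  obtain ⟨x1, hx1, hr1⟩ := up_link hn hm hWm (KW_subset W n F) BW_F BW_K hx hγ KW_touch hYU hρU
  set g := rfy n with hgdef
  have hKs : g.mp (KW W n F) ⊆ TBE 0 W 0 n := by
    have := g.mp_mono (KW_subset W n F)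
    rw [hgdef, rfy_TBE] at this
    simpa using this
  have hγ' : Reach (g.φ '' BW W n F) (x', 0) (x, n) := by
    have h1 := g.reach hγ.symm
    simpa [hgdef] using h1
  have hTBE : (↑(TBE 0 W 0 n) : Set Edg) = g.φ '' ↑(TBE 0 W 0 n) := by
    rw [← LSym.coe_mp, hgdef, rfy_TBE]; simp
  have hρ' : TBc 0 m 0 (2 * n) (g.mp F) := by
    obtain ⟨a1, a2, ha1, ha2, hr⟩ := hρD
    have h1 := g.reach hr
    rw [LSym.image_inter, hgdef, rfy_TBE, rfy_ψ, rfy_ψ] at h1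
    refine ⟨a2, a1, ha2, ha1, ?_⟩
    have h2 := h1.symm
    have e1 : n - n = 0 := by ring
    have e2 : n - -n = 2 * n := by ring
    rw [e1, e2] at h2
    exact h2
  have htouch : ∀ w, WW (g.mp (KW W n F)) w → ∃ y0 f, (0 ≤ y0 ∧ y0 < n) ∧
      DReach ((↑(g.mp F) : Set Edg)ᶜ ∩ ↑(TBE 0 W 0 n)) (-1, y0) f ∧
      (w.1 - 1 ≤ f.1 ∧ f.1 ≤ w.1) ∧ (w.2 - 1 ≤ f.2 ∧ f.2 ≤ w.2) := by
    intro w hw
    obtain ⟨y0, f, hy0, hd, h1, h2⟩ := KW_touch _ (WW_rfy hw)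
    have h3 := DReach_rfy n hd
    rw [Set.image_inter (rfy n).φ.injective, Set.image_compl_eq (rfy n).φ.bijective] at h3
    refine ⟨n - 1 - y0, (f.1, n - 1 - f.2), by omega, ?_, ?_, ?_⟩
    · rw [LSym.coe_mp, hTBE]
      exact h3
    · obtain ⟨a, b⟩ := w
      rw [rfy_ψ] at h1
      simp only at h1 ⊢; omega
    · obtain ⟨a, b⟩ := w
      rw [rfy_ψ] at h2
      simp only at h2 ⊢; omega
  obtain ⟨x2, hx2, hr2⟩ := up_link hn hm hWm hKs
    (B := g.φ '' BW W n F) (by rw [LSym.coe_mp]; exact Set.image_mono BW_F)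
    (by rw [LSym.coe_mp]; exact Set.image_mono BW_K) hx' hγ' htouch hYD hρ'
  have h4 := g.reach hr2
  rw [LSym.image_inter, hgdef, rfy_rfy, rfy_RE, rfy_ψ, rfy_ψ] at h4
  have e1 : n - 2 * n = -n := by ring
  have e2 : n - 0 = n := by ring
  rw [e1, e2] at h4
  have s1 : (↑F : Set Edg) ∩ ↑(RE 0 m 0 (2 * n)) ⊆ ↑F ∩ ↑(RE 0 m (-n) (2 * n)) := by
    rintro ⟨a, b, _ | _⟩ ⟨h7, h8⟩
    · refine ⟨h7, ?_⟩
      simp only [mem_coe, mem_RE_false] at h8 ⊢; omega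
    · refine ⟨h7, ?_⟩
      simp only [mem_coe, mem_RE_true] at h8 ⊢; omega
  have s2 : (↑F : Set Edg) ∩ ↑(RE 0 m (-n) n) ⊆ ↑F ∩ ↑(RE 0 m (-n) (2 * n)) := by
    rintro ⟨a, b, _ | _⟩ ⟨h7, h8⟩
    · refine ⟨h7, ?_⟩
      simp only [mem_coe, mem_RE_false] at h8 ⊢; omega
    · refine ⟨h7, ?_⟩
      simp only [mem_coe, mem_RE_true] at h8 ⊢; omega
  have s3 : BW W n F ⊆ ↑F ∩ ↑(RE 0 m (-n) (2 * n)) := by
    intro e he
    refine ⟨BW_F he, ?_⟩
    have h8 := he.1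
    obtain ⟨a, b, _ | _⟩ := e
    · simp only [mem_coe, mem_RE_false, mem_TBE_false] at h8 ⊢; omega
    · simp only [mem_coe, mem_RE_true, mem_TBE_true] at h8 ⊢; omega
  have hfin : Reach (↑F ∩ ↑(RE 0 m (-n) (2 * n))) (x2, -n) (x1, 2 * n) :=
    (h4.symm.mono s2).trans ((hγ.symm.mono s3).trans (hr1.mono s1))
  exact TBc_of_reach (by omega) hfin rfl rfl

end H974
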