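import Pool.Agent.H974R4.RswHigh

/-!
The Russo-Seymour-Welsh theorem for crossing probabilities close to one: probabilities.
-/

set_option maxHeartbeats 400000

namespace H974

open Finset

theorem TTW_of_mem {W n : ℤ} {K : Finset Edg} (hK : K ⊆ TBE 0 W 0 n) {e : Edg} (he : e ∈ K) :
    TT n K (src e) ∧ TT n K (tgt e) :=
  ⟨TT_of_WW hK ⟨e, he, Or.inl rfl⟩, TT_of_WW hK ⟨e, he, Or.inr rfl⟩⟩

theorem YYW_local {W n m : ℤ} {K : Finset Edg} (hK : K ⊆ TBE 0 W 0 n) (F : Finset Edg) :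
    YY n m K F ↔ YY n m K (F ∩ (RE 0 m 0 (2 * n) \ K)) := by
  constructor
  · rintro ⟨y, v, w, h1, h2, h3, ⟨e, ⟨he1, he2⟩, hcase⟩, h5⟩
    refine ⟨y, v, w, h1, h2.mono ?_, h3, ⟨e, ⟨?_, he2⟩, hcase⟩, h5⟩
    · rintro e' ⟨⟨k1, k2⟩, k3⟩
      refine ⟨⟨?_, k2⟩, k3⟩
      simp only [Finset.coe_inter, Finset.coe_sdiff, Set.mem_inter_iff, Set.mem_sdiff,
        Finset.mem_coe]
      exact ⟨k1, k2, fun h => k3.1 (TTW_of_mem hK h).1⟩
    · simp only [Finset.coe_inter, Finset.coe_sdiff, Set.mem_inter_iff, Set.mem_sdiff,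
        Finset.mem_coe]
      refine ⟨he1, he2, fun h => ?_⟩
      obtain ⟨t1, t2⟩ := TTW_of_mem hK h
      rcases hcase with ⟨h6, h7⟩ | ⟨h6, h7⟩
      · rw [h6] at t1; exact h3 t1
      · rw [h7] at t2; exact h3 t2
  · rintro ⟨y, v, w, h1, h2, h3, h4, h5⟩
    have hs : ((F ∩ (RE 0 m 0 (2 * n) \ K) : Finset Edg) : Set Edg) ∩ ↑(RE 0 m 0 (2 * n)) ⊆
        ↑F ∩ ↑(RE 0 m 0 (2 * n)) := by
      apply Set.inter_subset_inter_left
      rw [Finset.coe_inter]
      exact Set.inter_subset_left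
    exact ⟨y, v, w, h1, h2.mono (Set.inter_subset_inter_left _ hs), h3, h4.mono hs, h5⟩

theorem YYW_of_LRc {W n m : ℤ} (hm : W < m) {K : Finset Edg} (hK : K ⊆ TBE 0 W 0 n)
    (hcol : ∀ y, 0 ≤ y → y ≤ n → WW K (0, y)) {F : Finset Edg} (h : LRc 0 m 0 (2 * n) F) :
    YY n m K F ∨ YY n m K ((rfy (2 * n)).mp F) := by
  obtain ⟨y, y', hy, hy', hr⟩ := h
  have hr' : Reach (↑F ∩ ↑(RE 0 m 0 (2 * n))) (m, y') (0, y) :=
    (hr.symm.mono (Set.inter_subset_inter_right _ (by exact_mod_cast LRE_subset_RE)))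
  have hnT : ¬ TT n K (m, y') := by
    intro h
    have := (WW_in hK h).1.2
    simp only [fold] at this
    omega
  have hT : TT n K (0, y) := by
    have : fold n (0, y) = (0, min y (2 * n - y)) := rfl
    unfold TT
    rw [this]
    exact hcol _ (by omega) (by omega)
  obtain ⟨v', w', h1, h2, h3, h4⟩ := first_hit hr' hnT hT
  by_cases hw : w'.2 ≤ n
  · left
    have hf : fold n w' = w' := fold_of hw
    unfold TT at h4
    rw [hf] at h4
    exact ⟨y', v', w', hy', h1, h2, h3, h4⟩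
  · right
    have hTT : ∀ u : Vtx, TT n K ((rfy (2 * n)).ψ u) ↔ TT n K u := by
      intro u
      unfold TT
      rw [fold_rfy]
    have hsub1 : (rfy (2 * n)).φ '' ((↑F : Set Edg) ∩ ↑(RE 0 m 0 (2 * n))) ⊆
        ↑((rfy (2 * n)).mp F) ∩ ↑(RE 0 m 0 (2 * n)) := by
      rw [LSym.image_inter, rfy_RE]
      simp
    have hsub2 : (rfy (2 * n)).φ '' ((↑F : Set Edg) ∩ ↑(RE 0 m 0 (2 * n)) ∩
          {e | ¬ TT n K (src e) ∧ ¬ TT n K (tgt e)}) ⊆
        (↑((rfy (2 * n)).mp F) ∩ ↑(RE 0 m 0 (2 * n))) ∩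
          {e | ¬ TT n K (src e) ∧ ¬ TT n K (tgt e)} := by
      rintro e ⟨e', ⟨he1, he2⟩, rfl⟩
      refine ⟨hsub1 ⟨e', he1, rfl⟩, ?_⟩
      show ¬ TT n K (src ((rfy (2 * n)).φ e')) ∧ ¬ TT n K (tgt ((rfy (2 * n)).φ e'))
      rcases (rfy (2 * n)).compat e' with ⟨c1, c2⟩ | ⟨c1, c2⟩
      · rw [c1, c2, hTT, hTT]; exact he2
      · rw [c1, c2, hTT, hTT]; exact ⟨he2.2, he2.1⟩
    refine ⟨2 * n - y', (rfy (2 * n)).ψ v', (rfy (2 * n)).ψ w', by omega,
      ((rfy (2 * n)).reach h1).mono hsub2, ?_, ((rfy (2 * n)).adj h3).mono hsub1, ?_⟩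
    · rw [hTT]; exact h2
    · have hf : (rfy (2 * n)).ψ w' = fold n w' := by
        obtain ⟨a, b⟩ := w'
        simp only [fold, rfy_ψ, Prod.mk.injEq, true_and]
        simp only at hw
        omega
      rw [hf]
      exact h4

theorem YY_incr (S : Finset Edg) (n m : ℤ) (K : Finset Edg) : IncrE S (YY n m K) := by
  rintro F G h _ ⟨y, v, w, h1, h2, h3, h4, h5⟩
  have h' : (↑F : Set Edg) ∩ ↑(RE 0 m 0 (2 * n)) ⊆ ↑G ∩ ↑(RE 0 m 0 (2 * n)) :=
    Set.inter_subset_inter_left _ (by exact_mod_cast h)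
  exact ⟨y, v, w, h1, h2.mono (Set.inter_subset_inter_left _ h'), h3, h4.mono h', h5⟩

theorem Pr_split {p : Edg → ℝ} (S : Finset Edg) (A B : Finset Edg → Prop) :
    Pr p S A = Pr p S (fun F => B F ∧ A F) + Pr p S (fun F => ¬ B F ∧ A F) := by
  unfold Pr
  rw [← Ex_add]
  apply Ex_congr
  intro F _
  rw [ind_and, ind_and, ind_not]
  ring

/-- The square root trick. -/
theorem sqrt_trick {q : ℝ} (h0 : 0 ≤ q) (h1 : q ≤ 1) {S : Finset Edg} (g : LSym)
    (hg : g.mp S = S) {A C : Finset Edg → Prop} (hA : IncrE S A)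
    (hC : ∀ F, F ⊆ S → C F → A F ∨ A (g.mp F)) :
    (1 - Pr (fun _ => q) S A) ^ 2 ≤ 1 - Pr (fun _ => q) S C := by
  have ok := okq h0 h1
  set A' : Finset Edg → Prop := fun F => A (g.mp F) with hA'
  have e3 : Pr (fun _ => q) S A' = Pr (fun _ => q) S A := by
    rw [hA', ← LSym.pr, hg]
  have inc' : IncrE S A' := by
    intro F G h1 h2 h3
    refine hA (g.mp F) (g.mp G) (g.mp_mono h1) ?_ h3
    rw [← hg]
    exact g.mp_mono h2
  have d1 := Pr_harris_decr ok hA (B := fun F => ¬ A' F) (by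
    intro F G h1 h2 h3
    simp only [not_not] at h3 ⊢
    exact inc' F G h1 h2 h3)
  have d2 := Pr_split (p := fun _ => q) S (fun F => ¬ A' F) A
  have d3 : Pr (fun _ => q) S (fun F => ¬ A F ∧ ¬ A' F) ≤ Pr (fun _ => q) S (fun F => ¬ C F) := by
    apply Pr_mono ok
    rintro F hF ⟨k1, k2⟩ k3
    rcases hC F hF k3 with h | h
    · exact k1 h
    · exact k2 h
  rw [Pr_not S A'] at d1 d2
  rw [Pr_not S C] at d3
  rw [e3] at d1 d2
  nlinarith

theorem pr_YYW {q : ℝ} (h0 : 0 ≤ q) (h1 : q ≤ 1) {W n m : ℤ} (hm : W < m) {K : Finset Edg}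
    (hK : K ⊆ TBE 0 W 0 n) (hcol : ∀ y, 0 ≤ y → y ≤ n → WW K (0, y)) :
    Pr (fun _ => q) (RE 0 m 0 (2 * n)) (fun F => ¬ YY n m K F) ≤ √(1 - hh q m (2 * n)) := by
  have e1 : Pr (fun _ => q) (RE 0 m 0 (2 * n)) (LRc 0 m 0 (2 * n)) = hh q m (2 * n) := by
    rw [pr_LRc q LRE_subset_RE]; simp
  have h2 := sqrt_trick h0 h1 (rfy (2 * n)) (S := RE 0 m 0 (2 * n)) (by rw [rfy_RE]; simp)
    (YY_incr _ n m K) (C := LRc 0 m 0 (2 * n)) (fun F _ h => YYW_of_LRc hm hK hcol h)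
  rw [e1] at h2
  rw [Pr_not]
  exact Real.le_sqrt_of_sq_le h2

theorem high_pr {q : ℝ} (h0 : 0 ≤ q) (h1 : q ≤ 1) {n m W : ℤ} (hn : 0 < n) (hW : 0 ≤ W)
    (hWm : W < m) :
    1 - (1 - hh q n W) - 2 * √(1 - hh q m (2 * n)) - 2 * (1 - hh q (2 * n) m) ≤
      hh q (3 * n) m := by
  have ok := okq h0 h1
  have hm : 0 < m := by omega
  set U := RE 0 m (-n) (2 * n) with hU
  set S := TBE 0 W 0 n with hS
  have hSU : S ⊆ U := by
    rintro ⟨x, y, _ | _⟩ h8
    · simp only [hU, hS, mem_RE_false, mem_TBE_false] at h8 ⊢; omega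
    · simp only [hU, hS, mem_RE_true, mem_TBE_true] at h8 ⊢; omega
  have subU : RE 0 m 0 (2 * n) ⊆ U := by
    rintro ⟨x, y, _ | _⟩ h8
    · simp only [hU, mem_RE_false] at h8 ⊢; omega
    · simp only [hU, mem_RE_true] at h8 ⊢; omega
  have subD : RE 0 m (-n) n ⊆ U := by
    rintro ⟨x, y, _ | _⟩ h8
    · simp only [hU, mem_RE_false] at h8 ⊢; omega
    · simp only [hU, mem_RE_true] at h8 ⊢; omega
  set BadU : Finset Edg → Finset Edg → Prop := fun K F => ¬ YY n m K F with hBU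
  set BadD : Finset Edg → Finset Edg → Prop := fun K F => ¬ YY n m ((rfy n).mp K) ((rfy n).mp F)
    with hBD
  set ρ := √(1 - hh q m (2 * n)) with hρ
  have hρ0 : 0 ≤ ρ := Real.sqrt_nonneg _
  have hrS : ∀ K, K ⊆ S → (rfy n).mp K ⊆ TBE 0 W 0 n := by
    intro K hK
    have := (rfy n).mp_mono hK
    rw [hS, rfy_TBE] at this
    simpa using this
  -- locality
  have locU : ∀ K, K ⊆ S → ∀ F, (BadU K F ↔ BadU K (F ∩ (U \ K))) := by
    intro K hK F
    apply not_congr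
    rw [YYW_local hK F, YYW_local hK (F ∩ (U \ K))]
    have : (F ∩ (U \ K)) ∩ (RE 0 m 0 (2 * n) \ K) = F ∩ (RE 0 m 0 (2 * n) \ K) := by
      rw [Finset.inter_assoc]
      congr 1
      apply Finset.inter_eq_right.mpr
      exact Finset.sdiff_subset_sdiff subU (Finset.Subset.refl _)
    rw [this]
  have locD : ∀ K, K ⊆ S → ∀ F, (BadD K F ↔ BadD K (F ∩ (U \ K))) := by
    intro K hK F
    apply not_congr
    rw [YYW_local (hrS K hK) ((rfy n).mp F), YYW_local (hrS K hK) ((rfy n).mp (F ∩ (U \ K)))]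
    have : (rfy n).mp (F ∩ (U \ K)) ∩ (RE 0 m 0 (2 * n) \ (rfy n).mp K) =
        (rfy n).mp F ∩ (RE 0 m 0 (2 * n) \ (rfy n).mp K) := by
      rw [LSym.mp_inter, Finset.inter_assoc, LSym.mp_sdiff, hU, rfy_RE]
      congr 1
      apply Finset.inter_eq_right.mpr
      apply Finset.sdiff_subset_sdiff _ (Finset.Subset.refl _)
      rintro ⟨x, y, _ | _⟩ h8
      · simp only [mem_RE_false] at h8 ⊢; omega
      · simp only [mem_RE_true] at h8 ⊢; omega
    rw [this]
  -- probabilities of the bad events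
  have pU : ∀ K, K ⊆ S → (∀ y, 0 ≤ y → y ≤ n → WW K (0, y)) →
      Pr (fun _ => q) U (BadU K) ≤ ρ := by
    intro K hK hcol
    have e1 : Pr (fun _ => q) U (BadU K) = Pr (fun _ => q) (RE 0 m 0 (2 * n)) (BadU K) := by
      apply Pr_local subU
      intro F _
      apply not_congr
      rw [YYW_local hK F, YYW_local hK (F ∩ RE 0 m 0 (2 * n))]
      have : (F ∩ RE 0 m 0 (2 * n)) ∩ (RE 0 m 0 (2 * n) \ K) = F ∩ (RE 0 m 0 (2 * n) \ K) := by
        rw [Finset.inter_assoc]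
        congr 1
        exact Finset.inter_eq_right.mpr Finset.sdiff_subset
      rw [this]
    rw [e1]
    exact pr_YYW h0 h1 hWm hK hcol
  have pD : ∀ K, K ⊆ S → (∀ y, 0 ≤ y → y ≤ n → WW K (0, y)) →
      Pr (fun _ => q) U (BadD K) ≤ ρ := by
    intro K hK hcol
    have e1 : Pr (fun _ => q) U (BadD K) = Pr (fun _ => q) (RE 0 m (-n) n) (BadD K) := by
      apply Pr_local subD
      intro F _
      apply not_congr
      rw [YYW_local (hrS K hK) ((rfy n).mp F), YYW_local (hrS K hK) ((rfy n).mp (F ∩ RE 0 m (-n) n))]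
      have : (rfy n).mp (F ∩ RE 0 m (-n) n) ∩ (RE 0 m 0 (2 * n) \ (rfy n).mp K) =
          (rfy n).mp F ∩ (RE 0 m 0 (2 * n) \ (rfy n).mp K) := by
        rw [LSym.mp_inter, Finset.inter_assoc, rfy_RE]
        congr 1
        apply Finset.inter_eq_right.mpr
        have e1 : n - n = 0 := by ring
        have e2 : n - -n = 2 * n := by ring
        rw [e1, e2]
        exact Finset.sdiff_subset
      rw [this]
    have e2 : Pr (fun _ => q) (RE 0 m (-n) n) (BadD K) =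
        Pr (fun _ => q) (RE 0 m 0 (2 * n)) (fun F => ¬ YY n m ((rfy n).mp K) F) := by
      have e3 : RE 0 m 0 (2 * n) = (rfy n).mp (RE 0 m (-n) n) := by
        rw [rfy_RE]; congr 1 <;> ring
      rw [e3, LSym.pr]
    rw [e1, e2]
    apply pr_YYW h0 h1 hWm (hrS K hK)
    intro y hy1 hy2
    apply WW_rfy'
    rw [rfy_ψ]
    exact hcol _ (by omega) (by omega)
  -- decomposition according to the explored region
  have dec : ∀ Bad : Finset Edg → Finset Edg → Prop,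
      (∀ K, K ⊆ S → ∀ F, (Bad K F ↔ Bad K (F ∩ (U \ K)))) →
      (∀ K, K ⊆ S → (∀ y, 0 ≤ y → y ≤ n → WW K (0, y)) → Pr (fun _ => q) U (Bad K) ≤ ρ) →
      Pr (fun _ => q) U (fun F => Bad (KW W n F) F) ≤ ρ := by
    intro Bad loc pB
    have s1 : Pr (fun _ => q) U (fun F => Bad (KW W n F) F) =
        ∑ K ∈ S.powerset, Pr (fun _ => q) U (fun F => KW W n F = K ∧ Bad K F) := by
      unfold Pr
      rw [← Ex_sum]
      apply Ex_congr
      intro F _
      have hKS : KW W n F ∈ S.powerset := Finset.mem_powerset.mpr (KW_subset W n F)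
      rw [Finset.sum_eq_single_of_mem (KW W n F) hKS]
      · exact ind_congr ⟨fun h => ⟨rfl, h⟩, fun h => h.2⟩
      · intro K _ hne
        apply ind_not_of
        rintro ⟨h, -⟩
        exact hne h.symm
    have s2 : ∀ K ∈ S.powerset, Pr (fun _ => q) U (fun F => KW W n F = K ∧ Bad K F) ≤
        Pr (fun _ => q) U (fun F => KW W n F = K) * ρ := by
      intro K hK
      have hKS : K ⊆ S := Finset.mem_powerset.mp hK
      have hind := Pr_indep (p := fun _ : Edg => q) (U := U) (S := K) (T := U \ K)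
        (hKS.trans hSU) Finset.sdiff_subset Finset.disjoint_sdiff
        (A := fun F => KW W n F = K) (B := Bad K) (by
          intro F _
          have hFF : (F ∩ K) ∩ K = F ∩ K := by rw [Finset.inter_assoc, Finset.inter_self]
          constructor
          · intro h2
            have h4 : F ∩ KW W n F = (F ∩ K) ∩ KW W n F := by rw [h2, hFF]
            rw [KW_stop h4, h2]
          · intro h2
            have h4 : (F ∩ K) ∩ KW W n (F ∩ K) = F ∩ KW W n (F ∩ K) := by rw [h2, hFF]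
            rw [KW_stop h4, h2])
          (by intro F _; exact loc K hKS F)
      rw [hind]
      by_cases hex : ∃ F0, KW W n F0 = K
      · obtain ⟨F0, hF0⟩ := hex
        apply mul_le_mul_of_nonneg_left _ (Pr_nonneg ok _ _)
        refine pB K hKS ?_
        rw [← hF0]
        exact KW_col hn hW F0
      · have : Pr (fun _ => q) U (fun F => KW W n F = K) = 0 := by
          have h5 : Pr (fun _ => q) U (fun F => KW W n F = K)
              = Pr (fun _ => q) U (fun _ => False) := by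
            apply Pr_congr
            intro F _
            constructor
            · intro h6; exact hex ⟨F, h6⟩
            · intro h; exact h.elim
          rw [h5]
          unfold Pr
          rw [Ex_congr (g := fun _ => 0) (fun F _ => ind_not_of (fun h => h)), Ex_const]
        rw [this]
        simp
    have s3 : ∑ K ∈ S.powerset, Pr (fun _ => q) U (fun F => KW W n F = K) = 1 := by
      unfold Pr
      rw [← Ex_sum]
      rw [Ex_congr (g := fun _ => 1), Ex_const]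
      intro F _
      have hKS : KW W n F ∈ S.powerset := Finset.mem_powerset.mpr (KW_subset W n F)
      rw [Finset.sum_eq_single_of_mem (KW W n F) hKS]
      · exact ind_of rfl
      · intro K _ hne
        apply ind_not_of
        intro h
        exact hne h.symm
    calc Pr (fun _ => q) U (fun F => Bad (KW W n F) F)
        = ∑ K ∈ S.powerset, Pr (fun _ => q) U (fun F => KW W n F = K ∧ Bad K F) := s1
      _ ≤ ∑ K ∈ S.powerset, Pr (fun _ => q) U (fun F => KW W n F = K) * ρ :=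
          Finset.sum_le_sum s2
      _ = ρ := by rw [← Finset.sum_mul, s3, one_mul]
  have dU := dec BadU locU pU
  have dD := dec BadD locD pD
  -- the remaining events
  have pg : Pr (fun _ => q) U (fun F => ¬ goodW W n F) ≤ 1 - hh q n W := by
    have e1 : Pr (fun _ => q) U (TBc 0 W 0 n) = hh q n W := by
      rw [pr_TBc q hSU]; simp
    rw [Pr_not, ← e1]
    have := Pr_mono ok (S := U) (fun F _ h => goodW_of_TBc hW (F := F) (n := n) h)
    linarith
  have pr1 : Pr (fun _ => q) U (fun F => ¬ TBc 0 m 0 (2 * n) F) = 1 - hh q (2 * n) m := by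
    rw [Pr_not, pr_TBc q (TBE_subset_RE.trans subU)]; simp
  have pr2 : Pr (fun _ => q) U (fun F => ¬ TBc 0 m (-n) n F) = 1 - hh q (2 * n) m := by
    rw [Pr_not, pr_TBc q (TBE_subset_RE.trans subD)]
    congr 2 <;> ring
  have pr3 : Pr (fun _ => q) U (fun F => ¬ TBc 0 m (-n) (2 * n) F) = 1 - hh q (3 * n) m := by
    rw [Pr_not, pr_TBc q TBE_subset_RE]
    congr 2 <;> ring
  have hall : Pr (fun _ => q) U (fun F => ¬ TBc 0 m (-n) (2 * n) F) ≤
      Pr (fun _ => q) U (fun F => ¬ goodW W n F ∨ (BadU (KW W n F) F ∨ (BadD (KW W n F) F ∨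
        (¬ TBc 0 m 0 (2 * n) F ∨ ¬ TBc 0 m (-n) n F)))) := by
    apply Pr_mono ok
    intro F _ hF
    by_contra hno
    push Not at hno
    obtain ⟨k1, k2, k3, k4, k5⟩ := hno
    simp only [hBU, hBD, not_not] at k2 k3
    exact hF (high_det hn hW hm hWm.le k1 k2 k3 k4 k5)
  have u1 := Pr_or_le ok U (fun F => ¬ goodW W n F) (fun F => (BadU (KW W n F) F ∨
    (BadD (KW W n F) F ∨ (¬ TBc 0 m 0 (2 * n) F ∨ ¬ TBc 0 m (-n) n F))))
  have u2 := Pr_or_le ok U (fun F => BadU (KW W n F) F) (fun F =>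
    (BadD (KW W n F) F ∨ (¬ TBc 0 m 0 (2 * n) F ∨ ¬ TBc 0 m (-n) n F)))
  have u3 := Pr_or_le ok U (fun F => BadD (KW W n F) F) (fun F =>
    (¬ TBc 0 m 0 (2 * n) F ∨ ¬ TBc 0 m (-n) n F))
  have u4 := Pr_or_le ok U (fun F => ¬ TBc 0 m 0 (2 * n) F) (fun F => ¬ TBc 0 m (-n) n F)
  rw [pr3] at hall
  rw [pr1, pr2] at u4
  linarith

theorem rsw_high (ε : ℝ) (hε : 0 < ε) : ∃ δ : ℝ, 0 < δ ∧ ∀ q : ℝ, 0 ≤ q → q ≤ 1 →
    ∀ n : ℕ, 1 ≤ n → 1 - δ ≤ hh q (2 * n + 1) (2 * n) → 1 - ε ≤ hh q (3 * n) (2 * n + 1) := by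
  refine ⟨min 1 (ε ^ 2 / 25), lt_min one_pos (by positivity), ?_⟩
  intro q h0 h1 n hn hh1
  set δ := min 1 (ε ^ 2 / 25) with hδ
  have hn' : (0:ℤ) < n := by exact_mod_cast hn
  have hmain := high_pr h0 h1 (n := (n:ℤ)) (m := 2 * n + 1) (W := 2 * n) hn' (by omega) (by omega)
  have a1 : hh q (2 * n + 1) (2 * n) ≤ hh q n (2 * n) := hh_mono h0 h1 hn' (by omega) le_rfl
  have a2 : hh q (2 * n + 1) (2 * n) ≤ hh q (2 * n) (2 * n + 1) :=
    hh_mono h0 h1 (by omega) (by omega) (by omega)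
  have a3 : √(1 - hh q (2 * (n:ℤ) + 1) (2 * n)) ≤ ε / 5 := by
    apply Real.sqrt_le_iff.mpr
    refine ⟨by positivity, ?_⟩
    have : δ ≤ ε ^ 2 / 25 := min_le_right _ _
    nlinarith
  have a4 : 1 - hh q (2 * (n:ℤ) + 1) (2 * n) ≤ ε / 5 := by
    have b1 : 1 - hh q (2 * (n:ℤ) + 1) (2 * n) ≤ 1 := by
      have := hh_nonneg h0 h1 (2 * (n:ℤ) + 1) (2 * n); linarith
    have b2 : 0 ≤ 1 - hh q (2 * (n:ℤ) + 1) (2 * n) := by
      have := hh_le_one h0 h1 (2 * (n:ℤ) + 1) (2 * n); linarith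
    have b3 := Real.sq_sqrt b2
    have b4 := Real.sqrt_nonneg (1 - hh q (2 * (n:ℤ) + 1) (2 * n))
    have b5 : √(1 - hh q (2 * (n:ℤ) + 1) (2 * n)) ≤ 1 := by
      apply Real.sqrt_le_one.mpr b1
    nlinarith
  linarith

end H974
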