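import Pool.Agent.H974R2.RSW2

/-!
The Russo-Seymour-Welsh theorem for general parameters: squares to long rectangles.
-/

set_option maxHeartbeats 400000

namespace H974

open Finset

/-- Three-to-two rectangles. -/
theorem hh_32q {q a : ℝ} (h0 : 0 ≤ q) (h1 : q ≤ 1) (ha : 0 ≤ a) {n : ℤ} (hn : 0 < n)
    (hsq1 : a ≤ hh q n n) (hsq2 : a ≤ hh q (2 * n) (2 * n)) :
    a * (a / 2) * (a * (a / 2)) * a ≤ hh q (3 * n) (2 * n) := by
  have ok := okq h0 h1
  set U := RE (-n) (2 * n) 0 (2 * n) with hU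
  have sub1 : RE 0 (2 * n) 0 (2 * n) ⊆ U := by
    rintro ⟨x, y, _ | _⟩ h8
    · simp only [hU, mem_RE_false] at h8 ⊢; omega
    · simp only [hU, mem_RE_true] at h8 ⊢; omega
  have sub2 : RE (-n) n 0 (2 * n) ⊆ U := by
    rintro ⟨x, y, _ | _⟩ h8
    · simp only [hU, mem_RE_false] at h8 ⊢; omega
    · simp only [hU, mem_RE_true] at h8 ⊢; omega
  have sub3 : LRE 0 n 0 n ⊆ U := by
    rintro ⟨x, y, _ | _⟩ h8
    · simp only [hU, mem_RE_false, mem_LRE_false] at h8 ⊢; omega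
    · simp only [hU, mem_RE_true, mem_LRE_true] at h8 ⊢; omega
  have sub4 : RE 0 n 0 n ⊆ U := by
    rintro ⟨x, y, _ | _⟩ h8
    · simp only [hU, mem_RE_false] at h8 ⊢; omega
    · simp only [hU, mem_RE_true] at h8 ⊢; omega
  have hXl : ∀ (S : Finset Edg), RE 0 (2 * n) 0 (2 * n) ⊆ S → ∀ F : Finset Edg,
      (XR n (2 * n) F ↔ XR n (2 * n) (F ∩ RE 0 (2 * n) 0 (2 * n))) := by
    intro S _ F
    unfold XR
    have hT : TBE 0 n 0 n ⊆ RE 0 (2 * n) 0 (2 * n) := by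
      rintro ⟨x, y, _ | _⟩ h8
      · simp only [mem_RE_false, mem_TBE_false] at h8 ⊢; omega
      · simp only [mem_RE_true, mem_TBE_true] at h8 ⊢; omega
    rw [coe_inter_eq hT, coe_inter_eq (Finset.Subset.refl _)]
  have hxr : a * (a / 2) ≤ Pr (fun _ => q) (RE 0 (2 * n) 0 (2 * n)) (XR n (2 * n)) := by
    have h2 := pr_XR h0 h1 hn (show n < 2 * n by omega)
    refine le_trans ?_ h2
    have : a / 2 ≤ 1/2 * hh q (2 * n) (2 * n) := by linarith
    exact mul_le_mul hsq1 this (by linarith) (by linarith)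
  have p1 : a * (a / 2) ≤ Pr (fun _ => q) U (XR n (2 * n)) := by
    have h3 : Pr (fun _ => q) U (XR n (2 * n))
        = Pr (fun _ => q) (RE 0 (2 * n) 0 (2 * n)) (XR n (2 * n)) := by
      apply Pr_local sub1
      intro F _
      exact hXl _ (Finset.Subset.refl _) F
    rw [h3]
    exact hxr
  have p2 : a * (a / 2) ≤ Pr (fun _ => q) U (fun F => XR n (2 * n) ((rfx n).mp F)) := by
    have h3 : Pr (fun _ => q) U (fun F => XR n (2 * n) ((rfx n).mp F))
        = Pr (fun _ => q) (RE (-n) n 0 (2 * n)) (fun F => XR n (2 * n) ((rfx n).mp F)) := by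
      apply Pr_local sub2
      intro F _
      show XR n (2 * n) ((rfx n).mp F) ↔ XR n (2 * n) ((rfx n).mp (F ∩ RE (-n) n 0 (2 * n)))
      rw [LSym.mp_inter, rfx_RE]
      have e1 : n - n = 0 := by ring
      have e2 : n - (-n) = 2 * n := by ring
      rw [e1, e2]
      exact hXl _ (Finset.Subset.refl _) _
    rw [h3, ← LSym.pr, rfx_RE]
    have e1 : n - n = 0 := by ring
    have e2 : n - (-n) = 2 * n := by ring
    rw [e1, e2]
    exact hxr
  have p3 : a ≤ Pr (fun _ => q) U (LRc 0 n 0 n) := by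
    rw [pr_LRc _ sub3]; simpa using hsq1
  have inc2 : IncrE U (fun F => XR n (2 * n) ((rfx n).mp F)) := by
    intro F G h _ hX
    exact XR_incr ((rfx n).mp G) n (2 * n) _ _ ((rfx n).mp_mono h) (Finset.Subset.refl _) hX
  have i1 := Pr_harris ok (XR_incr U n (2 * n)) inc2
  have inc3 : IncrE U (fun F => XR n (2 * n) F ∧ XR n (2 * n) ((rfx n).mp F)) :=
    fun F G h h' hX => ⟨XR_incr U n (2 * n) F G h h' hX.1, inc2 F G h h' hX.2⟩
  have i2 := Pr_harris ok inc3 (LRc_incr U 0 n 0 n)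
  have i3 : Pr (fun _ => q) U (fun F => (XR n (2 * n) F ∧ XR n (2 * n) ((rfx n).mp F)) ∧
      LRc 0 n 0 n F) ≤ Pr (fun _ => q) U (LRc (-n) (2 * n) 0 (2 * n)) := by
    apply Pr_mono ok
    rintro F _ ⟨⟨⟨x, x', y, a1, a2, a3, a4, a5⟩, ⟨x1, x1', y1, b1, b2, b3, b4, b5⟩⟩, ⟨z, z', c1, c2, c3⟩⟩
    have b4' := (rfx n).reach b4
    have b5' := (rfx n).reach b5
    rw [LSym.image_inter, rfx_rfx, rfx_TBE] at b4'
    rw [LSym.image_inter, rfx_rfx, rfx_RE] at b5'
    simp only [rfx_ψ, sub_self, sub_zero] at b4' b5'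
    have e2 : n - 2 * n = -n := by ring
    rw [e2] at b5'
    have m1 := crossings_meet hn hn.le c2 a1 c3 a4
    have m2 := crossings_meet hn hn.le c2 (x := n - x1) (by omega) c3 b4'
    have f1 : (↑F : Set Edg) ∩ ↑(RE 0 n 0 n) ⊆ ↑F ∩ ↑U :=
      Set.inter_subset_inter_right _ (by exact_mod_cast sub4)
    have f2 : (↑F : Set Edg) ∩ ↑(RE 0 (2 * n) 0 (2 * n)) ⊆ ↑F ∩ ↑U :=
      Set.inter_subset_inter_right _ (by exact_mod_cast sub1)
    have f3 : (↑F : Set Edg) ∩ ↑(RE (-n) n 0 (2 * n)) ⊆ ↑F ∩ ↑U :=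
      Set.inter_subset_inter_right _ (by exact_mod_cast sub2)
    have r : Reach (↑F ∩ ↑(RE (-n) (2 * n) 0 (2 * n))) (-n, y1) (2 * n, y) :=
      (b5'.mono f3).trans ((m2.symm.mono f1).trans ((m1.mono f1).trans (a5.symm.mono f2)))
    exact LRc_of_reach (by omega) r rfl rfl
  have i4 : Pr (fun _ => q) U (LRc (-n) (2 * n) 0 (2 * n)) = hh q (3 * n) (2 * n) := by
    rw [pr_LRc _ LRE_subset_RE]
    congr 1 <;> ring
  rw [i4] at i3
  have ha2 : 0 ≤ a * (a / 2) := by positivity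
  have hP := mul_le_mul p1 p2 ha2 (le_trans ha2 p1)
  have hQ := mul_le_mul (hP.trans i1) p3 ha (le_trans (mul_nonneg ha2 ha2) (hP.trans i1))
  exact hQ.trans (i2.trans i3)

/-- Long rectangles. -/
theorem hh_longq {q a b : ℝ} (h0 : 0 ≤ q) (h1 : q ≤ 1) (ha : 0 ≤ a) (hb : 0 ≤ b) {n : ℤ}
    (hn : 0 < n) (hsq : a ≤ hh q (2 * n) (2 * n)) (h3 : b ≤ hh q (3 * n) (2 * n)) (j : ℕ) :
    (b * a) ^ j * b ≤ hh q ((3 + j) * n) (2 * n) := by
  induction j with
  | zero => simpa using h3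
  | succ j ih =>
    have g := hh_glue h0 h1 (w1 := (3 + j) * n) (w2 := 3 * n) (v := 2 * n) (h := 2 * n) (by omega)
      (by nlinarith [Int.natCast_nonneg j]) (by omega) (by omega)
    have e : (3 + (j:ℤ)) * n + 3 * n - 2 * n = (3 + ((j + 1 : ℕ) : ℤ)) * n := by
      push_cast; ring
    rw [e] at g
    refine le_trans ?_ g
    have hj : 0 ≤ (b * a) ^ j * b := by positivity
    have k1 := mul_le_mul ih h3 hb (le_trans hj ih)
    have k2 := mul_le_mul k1 hsq ha (le_trans (mul_nonneg hj hb) k1)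
    refine le_trans (le_of_eq ?_) k2
    rw [pow_succ]; ring

theorem hh_small_pos : 0 < hh (1/4) 48 1 := by
  unfold hh Pr Ex
  have hfull : LRc 0 48 0 1 (LRE 0 48 0 1) := by
    refine ⟨0, 0, by omega, by omega, ?_⟩
    have : ∀ n : ℕ, n ≤ 48 → Reach (↑(LRE 0 48 0 1) ∩ ↑(LRE 0 48 0 1)) (0, 0) ((n:ℤ), 0) := by
      intro n
      induction n with
      | zero => intro _; exact Reach.refl _ _
      | succ n ih =>
        intro hn
        refine (ih (by omega)).trans (Adj.reach ⟨((n:ℤ), 0, true), ?_, Or.inl ⟨rfl, ?_⟩⟩)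
        · have : (((n:ℤ), 0, true) : Edg) ∈ LRE 0 48 0 1 := by
            rw [mem_LRE_true]; omega
          exact ⟨this, this⟩
        · simp
    simpa using this 48 le_rfl
  have hnn : ∀ F ∈ (LRE 0 48 0 1).powerset, 0 ≤ (∏ e ∈ F, (1/4:ℝ)) *
      (∏ e ∈ LRE 0 48 0 1 \ F, (1 - 1/4:ℝ)) * ind (LRc 0 48 0 1 F) := by
    intro F _
    apply mul_nonneg (mul_nonneg _ _) (ind_nonneg _)
    · exact Finset.prod_nonneg (fun _ _ => by norm_num)
    · exact Finset.prod_nonneg (fun _ _ => by norm_num)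
  refine lt_of_lt_of_le ?_ (Finset.single_le_sum hnn
    (Finset.mem_powerset.mpr (Finset.Subset.refl (LRE 0 48 0 1))))
  rw [ind_of hfull, mul_one]
  apply mul_pos
  · exact Finset.prod_pos (fun _ _ => by norm_num)
  · exact Finset.prod_pos (fun _ _ => by norm_num)

theorem rsw_low (c : ℝ) (hc : 0 < c) : ∃ κ : ℝ, 0 < κ ∧ κ ≤ 1/2 ∧ ∀ q : ℝ, 1/4 ≤ q → q ≤ 3/4 →
    ∀ N : ℕ, (∀ k : ℕ, 1 ≤ k → 2 * k ≤ N → c ≤ hh q (2 * k + 1) (2 * k)) →
      ∀ h : ℕ, 1 ≤ h → h ≤ N → κ ≤ hh q (16 * h) h := by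
  set b : ℝ := c * (c / 2) * (c * (c / 2)) * c with hb
  have hbp : 0 < b := by positivity
  set κ1 : ℝ := (b * c) ^ 61 * b with hκ1
  have hκ1p : 0 < κ1 := by positivity
  refine ⟨min (1/2) (min κ1 (hh (1/4) 48 1)), lt_min (by norm_num) (lt_min hκ1p hh_small_pos),
    min_le_left _ _, ?_⟩
  intro q hq1 hq2 N hN h hh1 hhN
  have h0 : 0 ≤ q := by linarith
  have h1 : q ≤ 1 := by linarith
  by_cases h4 : h < 4
  · have k1 : hh (1/4) 48 1 ≤ hh q 48 1 := hh_mono_param (by norm_num) hq1 h1 _ _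
    have k2 : hh q 48 1 ≤ hh q (16 * h) h :=
      hh_mono h0 h1 (by omega) (by omega) (by omega)
    exact ((min_le_right _ _).trans (min_le_right _ _)).trans (k1.trans k2)
  · set k : ℕ := h / 4 with hk
    have hk1 : 1 ≤ k := by omega
    have hk2 : 4 * k ≤ h := by omega
    have hk3 : h < 4 * k + 4 := by omega
    set n : ℤ := 2 * (k:ℤ) with hn
    have hn0 : 0 < n := by omega
    have a1 : c ≤ hh q n n := by
      refine (hN k hk1 (by omega)).trans ?_
      exact hh_mono h0 h1 hn0 (by omega) le_rfl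
    have a2 : c ≤ hh q (2 * n) (2 * n) := by
      have := hN (2 * k) (by omega) (by omega)
      refine this.trans ?_
      have e : (2:ℤ) * ((2 * k : ℕ) : ℤ) = 2 * n := by rw [hn]; push_cast; ring
      rw [e]
      exact hh_mono h0 h1 (by omega) (by omega) le_rfl
    have a3 := hh_32q h0 h1 hc.le hn0 a1 a2
    have a4 := hh_longq h0 h1 hc.le hbp.le hn0 a2 a3 61
    have a5 : hh q ((3 + ((61:ℕ):ℤ)) * n) (2 * n) ≤ hh q (16 * h) h := by
      apply hh_mono h0 h1 (by omega)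
      · push_cast; omega
      · omega
    exact ((min_le_right _ _).trans (min_le_left _ _)).trans (a4.trans a5)

end H974
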