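import Pool.Agent.H974R4.Defs

/-! Statements (with `sorry`) of tasks. -/

namespace H974

open H12S Finset

/-! ### F1 -/
theorem rsw_low (c : ℝ) (hc : 0 < c) : ∃ κ : ℝ, 0 < κ ∧ κ ≤ 1/2 ∧ ∀ q : ℝ, 1/4 ≤ q → q ≤ 3/4 →
    ∀ N : ℕ, (∀ k : ℕ, 1 ≤ k → 2 * k ≤ N → c ≤ hh q (2 * k + 1) (2 * k)) →
      ∀ h : ℕ, 1 ≤ h → h ≤ N → κ ≤ hh q (16 * h) h := sorry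

/-! ### F2 -/
theorem rsw_high (ε : ℝ) (hε : 0 < ε) : ∃ δ : ℝ, 0 < δ ∧ ∀ q : ℝ, 0 ≤ q → q ≤ 1 →
    ∀ n : ℕ, 1 ≤ n → 1 - δ ≤ hh q (2 * n + 1) (2 * n) → 1 - ε ≤ hh q (3 * n) (2 * n + 1) := sorry

/-! ### F3 -/
theorem super_scale : ∃ κ : ℝ, 0 < κ ∧ κ ≤ 1/2 ∧ ∀ q : ℝ, 1/2 ≤ q → q ≤ 3/4 → ∀ n : ℕ,
    ¬ H12S.Win q κ n → ∃ N : ℕ, 2 ≤ N ∧ N ≤ n + 2 ∧ eps q N ≤ 1/100 := sorry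

end H974
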