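import Pool.Agent.H974R4.Barrier

/-!
The link between the boundary path of the explored region, the path from the right side and a
top-bottom crossing.
-/

set_option maxHeartbeats 400000

namespace H974

open Finset

theorem fold_of {n : ℤ} {v : Vtx} (h : v.2 ≤ n) : fold n v = v := by
  obtain ⟨a, b⟩ := v
  simp only [fold, Prod.mk.injEq, true_and]
  simp only at h
  omega

theorem fold_rfy (n : ℤ) (u : Vtx) : fold n ((rfy (2 * n)).ψ u) = fold n u := by
  obtain ⟨a, b⟩ := u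
  simp only [fold, rfy_ψ, Prod.mk.injEq, true_and]
  omega

theorem WW_in {W n : ℤ} {K : Finset Edg} (hK : K ⊆ TBE 0 W 0 n) {u : Vtx} (hu : WW K u) :
    inR 0 W 0 n u := by
  obtain ⟨e, he, heu⟩ := hu
  have := hK he
  unfold inR
  obtain ⟨x1, y1, _ | _⟩ := e
  · rw [mem_TBE_false] at this
    simp only [src_mk, tgt_false] at heu
    rcases heu with h | h <;> (rw [← h]; simp only; omega)
  · rw [mem_TBE_true] at this
    simp only [src_mk, tgt_true] at heu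
    rcases heu with h | h <;> (rw [← h]; simp only; omega)

theorem TT_of_WW {W n : ℤ} {K : Finset Edg} (hK : K ⊆ TBE 0 W 0 n) {u : Vtx} (hu : WW K u) :
    TT n K u := by
  unfold TT
  rw [fold_of (WW_in hK hu).2.2]
  exact hu

theorem TBE_sub {W m n : ℤ} (hWm : W ≤ m) (hn : 0 < n) : TBE 0 W 0 n ⊆ TBE 0 m 0 (2 * n) := by
  rintro ⟨x, y, _ | _⟩ h
  · rw [mem_TBE_false] at h ⊢; omega
  · rw [mem_TBE_true] at h ⊢; omega

theorem up_link {W n m : ℤ} (hn : 0 < n) (hm : 0 < m) (hWm : W ≤ m) {F K : Finset Edg}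
    {B : Set Edg} (hK : K ⊆ TBE 0 W 0 n) (hBF : B ⊆ ↑F) (hBK : B ⊆ ↑K)
    {x x' : ℤ} (hx : 0 ≤ x ∧ x ≤ W) (hγ : Reach B (x, 0) (x', n))
    (htouch : ∀ w, WW K w → ∃ y0 f, (0 ≤ y0 ∧ y0 < n) ∧
      DReach ((↑F : Set Edg)ᶜ ∩ ↑(TBE 0 W 0 n)) (-1, y0) f ∧
      (w.1 - 1 ≤ f.1 ∧ f.1 ≤ w.1) ∧ (w.2 - 1 ≤ f.2 ∧ f.2 ≤ w.2))
    (hY : YY n m K F) (hρ : TBc 0 m 0 (2 * n) F) :
    ∃ x1, (0 ≤ x1 ∧ x1 ≤ m) ∧ Reach (↑F ∩ ↑(RE 0 m 0 (2 * n))) (x, 0) (x1, 2 * n) := by
  obtain ⟨y, v, w, hy, hpath, hvT, hadj, hwW⟩ := hY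
  have hBT : B ⊆ ↑(TBE 0 W 0 n) := fun e he => hK (hBK he)
  obtain ⟨e0, he0, hcase0⟩ := hadj
  set G : Set Edg := ↑F ∩ ↑(RE 0 m 0 (2 * n)) with hG
  set G2 : Set Edg := (G ∩ {e | ¬ TT n K (src e) ∧ ¬ TT n K (tgt e)}) ∪ {e0} with hG2
  have hG2G : G2 ⊆ G := by
    rintro e (⟨h1, -⟩ | h1)
    · exact h1
    · rw [Set.mem_singleton_iff] at h1; rw [h1]; exact he0
  have hwv : Reach G2 w v := by
    apply Adj.reach
    exact ⟨e0, Or.inr rfl, hcase0.symm⟩
  have hwm : Reach G2 w (m, y) := hwv.trans (hpath.mono Set.subset_union_left).symm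
  have hwin := WW_in hK hwW
  have hwin' : inR 0 m 0 (2 * n) w := ⟨⟨hwin.1.1, by have := hwin.1.2; omega⟩, hwin.2.1,
    by have := hwin.2.2; omega⟩
  have hwT : TT n K w := TT_of_WW hK hwW
  -- vertices of the path from `w`
  have hG2v : ∀ u, Reach G2 w u → u = w ∨ ¬ TT n K u := by
    intro u hu
    induction hu with
    | refl => exact Or.inl rfl
    | @tail u u' _ hst ih =>
      obtain ⟨e, he, hcase⟩ := hst
      rcases he with ⟨-, h1, h2⟩ | he
      · right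
        rcases hcase with ⟨k1, k2⟩ | ⟨k1, k2⟩
        · rw [← k2]; exact h2
        · rw [← k1]; exact h1
      · rw [Set.mem_singleton_iff] at he
        subst he
        rcases hcase with ⟨k1, k2⟩ | ⟨k1, k2⟩ <;> rcases hcase0 with ⟨l1, l2⟩ | ⟨l1, l2⟩
        · left; rw [← k2, l2]
        · right; rw [← k2, l2]; exact hvT
        · right; rw [← k1, l1]; exact hvT
        · left; rw [← k1, l1]
  obtain ⟨y0, f, hy0, hdf, hf1, hf2⟩ := htouch w hwW
  have hHT : ∀ e ∈ ((↑F : Set Edg)ᶜ ∩ ↑(TBE 0 W 0 n)), e ∈ TBE 0 m 0 (2 * n) ∧ e ∉ (↑F : Set Edg) :=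
    fun e he => ⟨TBE_sub hWm hn he.2, he.1⟩
  -- first use of the barrier lemma
  set g := rfy (2 * n) with hg
  set G1 : Set Edg := B ∪ g.φ '' B with hG1
  have hG1T : G1 ⊆ ↑(TBE 0 m 0 (2 * n)) := by
    rintro e (he | ⟨e', he', rfl⟩)
    · exact TBE_sub hWm hn (hBT he)
    · have h1 : g.φ e' ∈ g.mp (TBE 0 m 0 (2 * n)) := by
        rw [LSym.mem_mp, Equiv.symm_apply_apply]; exact TBE_sub hWm hn (hBT he')
      rw [hg, rfy_TBE] at h1
      simpa using h1
  have hr1 : Reach (G1 ∩ ↑(TBE 0 m 0 (2 * n))) (x, 0) (x, 2 * n) := by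
    rw [Set.inter_eq_left.mpr hG1T]
    have h1 : Reach G1 (x, 0) (x', n) := hγ.mono Set.subset_union_left
    have h2 : Reach G1 (g.ψ (x, 0)) (g.ψ (x', n)) := (g.reach hγ).mono Set.subset_union_right
    have e1 : g.ψ (x, 0) = (x, 2 * n) := by rw [hg, rfy_ψ]; simp
    have e2 : g.ψ (x', n) = (x', n) := by rw [hg, rfy_ψ]; congr 1; ring
    rw [e1, e2] at h2
    exact h1.trans h2.symm
  have hbar1 := barrier (G1 := G1) (G2 := G2) (H := (↑F : Set Edg)ᶜ ∩ ↑(TBE 0 W 0 n)) hm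
    (show (0:ℤ) < 2 * n by omega) (hG2G.trans Set.inter_subset_right) (by
      intro e he
      refine ⟨TBE_sub hWm hn he.2, ?_⟩
      rintro (h1 | ⟨e', he', rfl⟩)
      · exact he.1 (hBF h1)
      · have h1 := hBT he'
        have h2 := he.2
        obtain ⟨a, b, _ | _⟩ := e'
        · rw [hg, rfy_φf, Finset.mem_coe, mem_TBE_false] at h2
          rw [Finset.mem_coe, mem_TBE_false] at h1
          omega
        · rw [hg, rfy_φt, Finset.mem_coe, mem_TBE_true] at h2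
          rw [Finset.mem_coe, mem_TBE_true] at h1
          omega) (x := x) (x' := x) (y0 := y0) (y1 := y) (f := f) (w := w)
    ⟨hx.1, by omega⟩ ⟨hy0.1, by omega⟩ hr1 hdf hf1 hf2 hwin' hwm
  obtain ⟨u, hu1, hu2⟩ := hbar1
  -- folding the boundary path
  have hfoldB : ∀ e ∈ B, fold n (src e) = src e ∧ fold n (tgt e) = tgt e := by
    intro e he
    have heK := hBK he
    exact ⟨fold_of (WW_in hK ⟨e, heK, Or.inl rfl⟩).2.2,
      fold_of (WW_in hK ⟨e, heK, Or.inr rfl⟩).2.2⟩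
  have hxW : WW K (x, 0) := by
    rcases Relation.ReflTransGen.cases_head hγ with h | ⟨c, ⟨e, he, hcase⟩, -⟩
    · exfalso
      simp only [Prod.mk.injEq] at h
      omega
    · rcases hcase with ⟨k1, -⟩ | ⟨-, k1⟩
      · exact ⟨e, hBK he, Or.inl k1⟩
      · exact ⟨e, hBK he, Or.inr k1⟩
  have hfold : ∀ u, Reach (G1 ∩ ↑(TBE 0 m 0 (2 * n))) (x, 0) u →
      TT n K u ∧ Reach B (x, 0) (fold n u) := by
    intro u hu
    induction hu with
    | refl =>
      refine ⟨TT_of_WW hK hxW, ?_⟩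
      rw [fold_of (by simpa using hn.le)]
      exact Reach.refl _ _
    | @tail u u' _ hst ih =>
      obtain ⟨e, ⟨he, -⟩, hcase⟩ := hst
      -- the folded edge
      obtain ⟨e', he', hc'⟩ : ∃ e' ∈ B, (src e' = fold n u ∧ tgt e' = fold n u') ∨
          (src e' = fold n u' ∧ tgt e' = fold n u) := by
        rcases he with he | ⟨e', he', rfl⟩
        · obtain ⟨f1, f2⟩ := hfoldB e he
          refine ⟨e, he, ?_⟩
          rcases hcase with ⟨k1, k2⟩ | ⟨k1, k2⟩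
          · left; rw [← k1, ← k2]; exact ⟨f1.symm, f2.symm⟩
          · right; rw [← k1, ← k2]; exact ⟨f1.symm, f2.symm⟩
        · obtain ⟨f1, f2⟩ := hfoldB e' he'
          refine ⟨e', he', ?_⟩
          rcases g.compat e' with ⟨c1, c2⟩ | ⟨c1, c2⟩ <;> rw [c1, c2] at hcase <;>
            rcases hcase with ⟨k1, k2⟩ | ⟨k1, k2⟩
          · left; rw [← k1, ← k2, hg, fold_rfy, fold_rfy]; exact ⟨f1.symm, f2.symm⟩
          · right; rw [← k1, ← k2, hg, fold_rfy, fold_rfy]; exact ⟨f1.symm, f2.symm⟩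
          · right; rw [← k1, ← k2, hg, fold_rfy, fold_rfy]; exact ⟨f1.symm, f2.symm⟩
          · left; rw [← k1, ← k2, hg, fold_rfy, fold_rfy]; exact ⟨f1.symm, f2.symm⟩
      refine ⟨?_, ih.2.trans (Adj.reach ⟨e', he', hc'⟩)⟩
      unfold TT
      rcases hc' with ⟨-, k2⟩ | ⟨k1, -⟩
      · exact ⟨e', hBK he', Or.inr k2⟩
      · exact ⟨e', hBK he', Or.inl k1⟩
  obtain ⟨hTu, hru⟩ := hfold u hu1
  have huw : u = w := by
    rcases hG2v u hu2 with h | h
    · exact h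
    · exact absurd hTu h
  rw [huw, fold_of hwin.2.2] at hru
  -- second use of the barrier lemma
  obtain ⟨x1, x2, hx1, hx2, hr2⟩ := hρ
  obtain ⟨u', hu1', hu2'⟩ := barrier (G1 := ↑F) (G2 := G2)
    (H := (↑F : Set Edg)ᶜ ∩ ↑(TBE 0 W 0 n)) hm
    (show (0:ℤ) < 2 * n by omega) (hG2G.trans Set.inter_subset_right) hHT
    (x := x1) (x' := x2) (y0 := y0) (y1 := y) (f := f) (w := w) hx2
    ⟨hy0.1, by omega⟩ hr2 hdf hf1 hf2 hwin' hwm
  have hsub1 : (↑F : Set Edg) ∩ ↑(TBE 0 m 0 (2 * n)) ⊆ G :=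
    Set.inter_subset_inter_right _ (by exact_mod_cast TBE_subset_RE)
  have hBG : B ⊆ G := fun e he => ⟨hBF he, TBE_subset_RE (TBE_sub hWm hn (hBT he))⟩
  refine ⟨x2, hx2, ?_⟩
  exact (hru.mono hBG).trans ((hu2'.mono hG2G).trans (((hu1'.symm).trans hr2).mono hsub1))

theorem DAdj_rfy (k : ℤ) {G : Set Edg} {f g : Vtx} (h : DAdj G f g) :
    DAdj ((rfy k).φ '' G) (f.1, k - 1 - f.2) (g.1, k - 1 - g.2) := by
  obtain ⟨⟨x, y, b⟩, he, hcase⟩ := h
  refine ⟨(rfy k).φ (x, y, b), Set.mem_image_of_mem _ he, ?_⟩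
  cases b
  · simp only [dsrc_false, dtgt_mk] at hcase
    simp only [rfy_φf, dsrc_false, dtgt_mk]
    rcases hcase with ⟨h1, h2⟩ | ⟨h1, h2⟩
    · left; rw [← h1, ← h2]; exact ⟨Prod.ext (by simp only) (by simp only; ring), Prod.ext (by simp only) (by simp only; ring)⟩
    · right; rw [← h1, ← h2]; exact ⟨Prod.ext (by simp only) (by simp only; ring), Prod.ext (by simp only) (by simp only; ring)⟩
  · simp only [dsrc_true, dtgt_mk] at hcase
    simp only [rfy_φt, dsrc_true, dtgt_mk]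
    rcases hcase with ⟨h1, h2⟩ | ⟨h1, h2⟩
    · right; rw [← h1, ← h2]; exact ⟨Prod.ext (by simp only) (by simp only; ring), Prod.ext (by simp only) (by simp only; ring)⟩
    · left; rw [← h1, ← h2]; exact ⟨Prod.ext (by simp only) (by simp only; ring), Prod.ext (by simp only) (by simp only; ring)⟩

theorem DReach_rfy (k : ℤ) {G : Set Edg} {f g : Vtx} (h : DReach G f g) :
    DReach ((rfy k).φ '' G) (f.1, k - 1 - f.2) (g.1, k - 1 - g.2) := by
  induction h with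
  | refl => exact DReach.refl _ _
  | tail _ hs ih => exact ih.trans (DAdj_rfy k hs).reach

end H974
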